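import Mathlib

/-!
# Permanental means, geometric means and scaling means
-/

set_option autoImplicit false

open MeasureTheory
open scoped ENNReal

namespace Pool.Agent.H415.LLP

/-- the permanental mean `(per B / n!)^(1/n)` of an `n × n` matrix -/
noncomputable def pmean {n : ℕ} (B : Matrix (Fin n) (Fin n) ℝ) : ℝ :=
  (B.permanent / (n.factorial : ℝ)) ^ (1 / (n : ℝ))

variable {Ω : Type*} [MeasurableSpace Ω]

/-- the geometric mean `exp ∫ log φ` -/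
noncomputable def gm (μ : Measure Ω) (φ : Ω → ℝ) : ℝ := Real.exp (∫ ω, Real.log (φ ω) ∂μ)

/-- the class `𝒢` of positive functions, measurable for the `σ`-algebra of `T`-invariant sets, with
integrable logarithm -/
structure InG (μ : Measure Ω) (T : Ω → Ω) (φ : Ω → ℝ) : Prop where
  meas : Measurable[MeasurableSpace.invariants T] φ
  pos : ∀ ω, 0 < φ ω
  logInt : Integrable (fun ω => Real.log (φ ω)) μ

/-- the scaling mean `inf ∫ g₁ f g₂ / (gm g₁ · gm g₂)` over `g₁ ∈ 𝒢₁`, `g₂ ∈ 𝒢₂` -/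
noncomputable def smean (μ : Measure Ω) (T₁ T₂ : Ω → Ω) (f : Ω → ℝ) : ℝ≥0∞ :=
  ⨅ (g₁ : Ω → ℝ) (g₂ : Ω → ℝ) (_ : InG μ T₁ g₁) (_ : InG μ T₂ g₂),
    (∫⁻ ω, ENNReal.ofReal (g₁ ω * f ω * g₂ ω) ∂μ) / ENNReal.ofReal (gm μ g₁ * gm μ g₂)

/-- bounded members of the class `𝒢` (bounded away from `0` and `∞`) -/
def Bd (T : Ω → Ω) (g : Ω → ℝ) : Prop :=
  Measurable[MeasurableSpace.invariants T] g ∧ ∃ M : ℝ, 0 < M ∧ ∀ ω, M⁻¹ ≤ g ω ∧ g ω ≤ M

/-- the functional of the scaling mean -/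
noncomputable def J (μ : Measure Ω) (f g₁ g₂ : Ω → ℝ) : ℝ :=
  (∫ ω, g₁ ω * f ω * g₂ ω ∂μ) / (gm μ g₁ * gm μ g₂)

/-- the infimum over bounded functions -/
noncomputable def s0 (μ : Measure Ω) (T₁ T₂ : Ω → Ω) (f : Ω → ℝ) : ℝ :=
  sInf {r | ∃ g₁ g₂ : Ω → ℝ, Bd T₁ g₁ ∧ Bd T₂ g₂ ∧ r = J μ f g₁ g₂}

end Pool.Agent.H415.LLP
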