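import Mathlib
import Pool.Agent.H415.LLP.Defs

/-!
# The scaling mean with almost everywhere invariant functions
-/

set_option autoImplicit false

open MeasureTheory
open scoped ENNReal

namespace Pool.Agent.H415.LLP

variable {Ω : Type*} [MeasurableSpace Ω]

/-- positive measurable functions with integrable logarithm, invariant under `T` up to null sets -/
structure InGae (μ : Measure Ω) (T : Ω → Ω) (φ : Ω → ℝ) : Prop where
  meas : Measurable φ
  inv : ∀ᵐ ω ∂μ, φ (T ω) = φ ω
  pos : ∀ ω, 0 < φ ω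
  logInt : Integrable (fun ω => Real.log (φ ω)) μ

/-- the scaling mean in which invariance is only required almost everywhere -/
noncomputable def smeanAE (μ : Measure Ω) (T₁ T₂ : Ω → Ω) (f : Ω → ℝ) : ℝ≥0∞ :=
  ⨅ (g₁ : Ω → ℝ) (g₂ : Ω → ℝ) (_ : InGae μ T₁ g₁) (_ : InGae μ T₂ g₂),
    (∫⁻ ω, ENNReal.ofReal (g₁ ω * f ω * g₂ ω) ∂μ) / ENNReal.ofReal (gm μ g₁ * gm μ g₂)

end Pool.Agent.H415.LLP
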