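import Mathlib
import Pool.Agent.H165R3.BPE

/-!
# Ergodic averages over squares for a pair of commuting maps
-/

set_option autoImplicit false

open Set Filter Topology MeasureTheory
open Pool.Agent.H165R3.BPE

namespace Pool.Agent.H415.LLP

variable {Ω : Type*} [MeasurableSpace Ω] {μ : Measure Ω} [IsProbabilityMeasure μ]

omit [MeasurableSpace Ω] in
lemma Mx_comm {S T : Ω → Ω} (comm : ∀ ω, S (T ω) = T (S ω)) {φ : Ω → ℝ}
    (hinv : ∀ ω, φ (S ω) = φ ω) (n : ℕ) (ω : Ω) : Mx T φ n (S ω) = Mx T φ n ω := by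
  induction n generalizing ω with
  | zero => rfl
  | succ n ih =>
    show max 0 (φ (S ω) + Mx T φ n (T (S ω))) = max 0 (φ ω + Mx T φ n (T ω))
    rw [hinv, ← comm, ih]

/-- the two maps have no common invariant sets of intermediate measure -/
def ErgPair (μ : Measure Ω) (S T : Ω → Ω) : Prop :=
  ∀ A, MeasurableSet A → S ⁻¹' A = A → T ⁻¹' A = A → μ A = 0 ∨ μ A = 1

omit [IsProbabilityMeasure μ] in
lemma ErgPair.symm {S T : Ω → Ω} (h : ErgPair μ S T) : ErgPair μ T S :=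
  fun A hA h1 h2 => h A hA h2 h1

lemma upper0 {S T : Ω → Ω} (hT : MeasurePreserving T μ μ) (comm : ∀ ω, S (T ω) = T (S ω))
    (herg : ErgPair μ S T) {φ : Ω → ℝ} (hφ : Measurable φ) (hinv : ∀ ω, φ (S ω) = φ ω) {C : ℝ}
    (hb : ∀ ω, |φ ω| ≤ C) {ε : ℝ} (hε : 0 < ε) :
    ∀ᵐ x ∂μ, ∀ᶠ n : ℕ in atTop,
      (n : ℝ)⁻¹ * ∑ k ∈ Finset.range n, φ (T^[k] x) ≤ (∫ ω, φ ω ∂μ) + ε := by
  set I := ∫ ω, φ ω ∂μ with hI
  have hφm : Measurable fun x => φ x - (I + ε / 2) := hφ.sub measurable_const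
  have hφb : ∀ x, |φ x - (I + ε / 2)| ≤ C + |I + ε / 2| := fun x =>
    (abs_sub _ _).trans (add_le_add (hb x) le_rfl)
  have h1 := Un_int hT (fun x => φ x - (I + ε / 2)) hφm _ hφb
  have hAm := Un_meas hT.measurable hφm
  have hAi := Un_inv T hφb
  have hAS : S ⁻¹' (Un T fun x => φ x - (I + ε / 2)) = Un T fun x => φ x - (I + ε / 2) := by
    ext x
    have : ∀ n, Mx T (fun x => φ x - (I + ε / 2)) n (S x) = Mx T (fun x => φ x - (I + ε / 2)) n x :=
      fun n => Mx_comm comm (fun ω => by simp only [hinv]) n x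
    simp only [Un, mem_preimage, mem_setOf_eq, this]
  have hif : Integrable φ μ := by
    refine Integrable.mono' (integrable_const C) hφ.aestronglyMeasurable ?_
    filter_upwards with x
    exact hb x
  have h6 : ∀ᵐ x ∂μ, x ∉ Un T (fun x => φ x - (I + ε / 2)) := by
    rcases herg _ hAm hAS hAi with h0 | h0
    · exact measure_eq_zero_iff_ae_notMem.1 h0
    · exfalso
      have h2 : ∫ x in Un T (fun x => φ x - (I + ε / 2)), (φ x - (I + ε / 2)) ∂μ =
          ∫ x, (φ x - (I + ε / 2)) ∂μ := by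
        have hae : (Un T (fun x => φ x - (I + ε / 2)) : Set Ω) =ᵐ[μ] (univ : Set Ω) := by
          rw [ae_eq_univ]
          exact (prob_compl_eq_zero_iff hAm).2 h0
        rw [setIntegral_congr_set hae, setIntegral_univ]
      rw [h2, integral_sub hif (integrable_const _)] at h1
      simp only [integral_const, probReal_univ, smul_eq_mul, one_mul] at h1
      rw [← hI] at h1
      linarith
  filter_upwards [h6] with x hx
  have hx' : ¬ ∀ K : ℕ, ∃ n, (K : ℝ) < Mx T (fun x => φ x - (I + ε / 2)) n x := hx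
  simp only [not_forall, not_exists, not_lt] at hx'
  obtain ⟨K, hK⟩ := hx'
  obtain ⟨N, hN⟩ := exists_nat_gt ((K : ℝ) / (ε / 2))
  filter_upwards [eventually_ge_atTop (N + 1)] with n hn
  have h3 := (Mx_sum T (fun x => φ x - (I + ε / 2)) n x).trans (hK n)
  rw [Finset.sum_sub_distrib] at h3
  simp only [Finset.sum_const, Finset.card_range, nsmul_eq_mul] at h3
  have hn0 : (0 : ℝ) < n := by
    have : 0 < n := by omega
    exact_mod_cast this
  have h4 : (K : ℝ) ≤ n * (ε / 2) := by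
    rw [div_lt_iff₀ (by positivity)] at hN
    have : (N : ℝ) ≤ n := by
      have : N ≤ n := by omega
      exact_mod_cast this
    nlinarith
  rw [inv_mul_le_iff₀ hn0]
  nlinarith

/-- averages along `T` of an `S`-invariant function converge to the mean, if the pair is ergodic -/
lemma erg0 {S T : Ω → Ω} (hT : MeasurePreserving T μ μ) (comm : ∀ ω, S (T ω) = T (S ω))
    (herg : ErgPair μ S T) {φ : Ω → ℝ} (hφ : Measurable φ) (hinv : ∀ ω, φ (S ω) = φ ω) {C : ℝ}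
    (hb : ∀ ω, |φ ω| ≤ C) :
    ∀ᵐ x ∂μ, Tendsto (fun n : ℕ => (n : ℝ)⁻¹ * ∑ k ∈ Finset.range n, φ (T^[k] x)) atTop
      (𝓝 (∫ ω, φ ω ∂μ)) := by
  have h1 : ∀ j : ℕ, ∀ᵐ x ∂μ, ∀ᶠ n : ℕ in atTop,
      (n : ℝ)⁻¹ * ∑ k ∈ Finset.range n, φ (T^[k] x) ≤ (∫ x, φ x ∂μ) + 1 / ((j : ℝ) + 1) :=
    fun j => upper0 hT comm herg hφ hinv hb (by positivity)
  have h2 : ∀ j : ℕ, ∀ᵐ x ∂μ, ∀ᶠ n : ℕ in atTop,
      (n : ℝ)⁻¹ * ∑ k ∈ Finset.range n, (- φ (T^[k] x)) ≤ (∫ x, - φ x ∂μ) + 1 / ((j : ℝ) + 1) :=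
    fun j => upper0 hT comm herg (φ := fun x => - φ x) hφ.neg (fun ω => by simp only [hinv])
      (C := C) (by simpa using hb) (by positivity)
  rw [← ae_all_iff] at h1 h2
  filter_upwards [h1, h2] with x hx1 hx2
  rw [Metric.tendsto_atTop']
  intro ε hε
  obtain ⟨j, hj⟩ := exists_nat_one_div_lt hε
  obtain ⟨N1, hN1⟩ := eventually_atTop.mp (hx1 j)
  obtain ⟨N2, hN2⟩ := eventually_atTop.mp (hx2 j)
  refine ⟨max N1 N2, fun n hn => ?_⟩
  have h3 := hN1 n (le_trans (le_max_left _ _) hn.le)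
  have h4 := hN2 n (le_trans (le_max_right _ _) hn.le)
  rw [integral_neg, Finset.sum_neg_distrib, mul_neg] at h4
  rw [Real.dist_eq, abs_lt]
  constructor <;> linarith

/-- the conditional expectation of an `S`-invariant function given the `T`-invariant sets -/
lemma condExp_inv {S T : Ω → Ω} (hT : MeasurePreserving T μ μ) (comm : ∀ ω, S (T ω) = T (S ω))
    (herg : ErgPair μ S T) {φ : Ω → ℝ} (hφ : Measurable φ) (hinv : ∀ ω, φ (S ω) = φ ω) {C : ℝ}
    (hb : ∀ ω, |φ ω| ≤ C) :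
    ∀ᵐ x ∂μ, (μ[φ | MeasurableSpace.invariants T]) x = ∫ ω, φ ω ∂μ := by
  filter_upwards [erg0 hT comm herg hφ hinv hb, birkhoff hT φ hφ C hb] with x h1 h2
  exact tendsto_nhds_unique h2 h1

/-- averages of rows -/
lemma rows {S T : Ω → Ω} (hS : MeasurePreserving S μ μ) (hT : MeasurePreserving T μ μ)
    {h : Ω → ℝ} (hh : Measurable h) {C : ℝ} (hb : ∀ ω, |h ω| ≤ C) {c : Ω → ℝ} (hc : Measurable c)
    (hcb : ∀ ω, |c ω| ≤ C) (hce : ∀ᵐ ω ∂μ, c ω = (μ[h | MeasurableSpace.invariants T]) ω) :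
    ∀ᵐ ω ∂μ, Tendsto (fun n : ℕ => (n : ℝ)⁻¹ * ∑ i ∈ Finset.range n,
      |(n : ℝ)⁻¹ * ∑ j ∈ Finset.range n, h (T^[j] (S^[i] ω)) - c (S^[i] ω)|) atTop (𝓝 0) := by
  by_cases hne : Nonempty Ω
  swap
  · filter_upwards with x
    exact absurd ⟨x⟩ hne
  obtain ⟨x₀⟩ := hne
  have hC : 0 ≤ C := (abs_nonneg _).trans (hb x₀)
  set A : ℕ → Ω → ℝ := fun n ω => |(n : ℝ)⁻¹ * ∑ j ∈ Finset.range n, h (T^[j] ω) - c ω| with hA
  have hAb : ∀ n ω, A n ω ≤ 2 * C := by
    intro n ω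
    have h1 : |(n : ℝ)⁻¹ * ∑ j ∈ Finset.range n, h (T^[j] ω)| ≤ C := by
      rw [abs_mul, abs_of_nonneg (by positivity : (0 : ℝ) ≤ (n : ℝ)⁻¹)]
      rcases Nat.eq_zero_or_pos n with h0 | h0
      · subst h0; simpa using hC
      have hn : (0 : ℝ) < n := by exact_mod_cast h0
      rw [inv_mul_le_iff₀ hn]
      calc |∑ j ∈ Finset.range n, h (T^[j] ω)| ≤ ∑ j ∈ Finset.range n, |h (T^[j] ω)| :=
            Finset.abs_sum_le_sum_abs _ _
        _ ≤ ∑ j ∈ Finset.range n, C := Finset.sum_le_sum fun j _ => hb _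
        _ = n * C := by simp
    have := (abs_sub ((n : ℝ)⁻¹ * ∑ j ∈ Finset.range n, h (T^[j] ω)) (c ω)).trans
      (add_le_add h1 (hcb ω))
    simp only [hA]
    linarith
  have hA0 : ∀ n ω, 0 ≤ A n ω := fun n ω => abs_nonneg _
  have hAm : ∀ n, Measurable (A n) := by
    intro n
    refine Measurable.abs (Measurable.sub (Measurable.const_mul ?_ _) hc)
    exact Finset.measurable_fun_sum _ fun j _ => hh.comp (hT.measurable.iterate j)
  have hAlim : ∀ᵐ ω ∂μ, Tendsto (fun n => A n ω) atTop (𝓝 0) := by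
    filter_upwards [birkhoff hT h hh C hb, hce] with ω h1 h2
    rw [← h2] at h1
    have h3 := (h1.sub_const (c ω)).abs
    simpa using h3
  set D : ℕ → Ω → ℝ := fun N ω => ⨆ n : ℕ, A (N + n) ω with hD
  have hbdd : ∀ N ω, BddAbove (range fun n : ℕ => A (N + n) ω) := by
    intro N ω
    refine ⟨2 * C, ?_⟩
    rintro _ ⟨n, rfl⟩
    exact hAb _ _
  have hDm : ∀ N, Measurable (D N) := fun N => Measurable.iSup fun n => hAm _
  have hDle : ∀ N ω, D N ω ≤ 2 * C := fun N ω => ciSup_le fun n => hAb _ _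
  have hAD : ∀ N n ω, N ≤ n → A n ω ≤ D N ω := by
    intro N n ω hn
    obtain ⟨k, rfl⟩ := Nat.exists_eq_add_of_le hn
    exact le_ciSup (hbdd N ω) k
  have hD0 : ∀ N ω, 0 ≤ D N ω := fun N ω => (hA0 N ω).trans (hAD N N ω le_rfl)
  have hDabs : ∀ N ω, |D N ω| ≤ 2 * C := fun N ω => by
    rw [abs_of_nonneg (hD0 N ω)]; exact hDle N ω
  have hDlim : ∀ᵐ ω ∂μ, Tendsto (fun N => D N ω) atTop (𝓝 0) := by
    filter_upwards [hAlim] with ω hω
    rw [Metric.tendsto_atTop] at hω ⊢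
    intro ε hε
    obtain ⟨N, hN⟩ := hω (ε / 2) (by positivity)
    refine ⟨N, fun M hM => ?_⟩
    rw [Real.dist_eq, sub_zero, abs_of_nonneg (hD0 M ω)]
    refine lt_of_le_of_lt (ciSup_le fun n => ?_) (by linarith : ε / 2 < ε)
    have := hN (M + n) (by omega)
    rw [Real.dist_eq, sub_zero, abs_of_nonneg (hA0 _ _)] at this
    exact this.le
  have hDi : ∀ N, Integrable (D N) μ := fun N =>
    Integrable.mono' (integrable_const (2 * C)) (hDm N).aestronglyMeasurable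
      (Eventually.of_forall fun ω => hDabs N ω)
  have hInt : Tendsto (fun N => ∫ ω, D N ω ∂μ) atTop (𝓝 0) := by
    have := tendsto_integral_of_dominated_convergence (F := D) (f := fun _ => (0 : ℝ)) (μ := μ)
      (fun _ => 2 * C) (fun N => (hDm N).aestronglyMeasurable) (integrable_const _)
      (fun N => Eventually.of_forall fun ω => hDabs N ω) hDlim
    simpa using this
  have hle := MeasurableSpace.invariants_le S
  set E : ℕ → Ω → ℝ := fun N => μ[D N | MeasurableSpace.invariants S] with hE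
  have hE0 : ∀ N, ∀ᵐ ω ∂μ, 0 ≤ E N ω := fun N =>
    condExp_nonneg (Eventually.of_forall fun ω => hD0 N ω)
  have hEi : ∀ N, ∫ ω, E N ω ∂μ = ∫ ω, D N ω ∂μ := fun N => integral_condExp hle
  have hsmall : ∀ k : ℕ, ∀ᵐ ω ∂μ, ∃ N, E N ω < 1 / ((k : ℝ) + 1) := by
    intro k
    set ε : ℝ := 1 / ((k : ℝ) + 1) with hε
    have hε0 : 0 < ε := by positivity
    have h1 : ∀ N, μ.real {ω | ∀ N, ε ≤ E N ω} ≤ (∫ ω, D N ω ∂μ) / ε := by
      intro N
      have h2 := mul_meas_ge_le_integral_of_nonneg (μ := μ) (hE0 N) integrable_condExp ε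
      rw [hEi] at h2
      have h3 : μ.real {ω | ∀ N, ε ≤ E N ω} ≤ μ.real {ω | ε ≤ E N ω} :=
        measureReal_mono fun ω hω => hω N
      rw [le_div_iff₀ hε0]
      nlinarith
    have h2 : μ.real {ω | ∀ N, ε ≤ E N ω} ≤ 0 := by
      refine ge_of_tendsto' (hInt.div_const ε |>.congr fun _ => rfl) h1 |>.trans ?_
      simp
    have h3 : μ.real {ω | ∀ N, ε ≤ E N ω} = 0 := le_antisymm h2 measureReal_nonneg
    rw [measureReal_eq_zero_iff] at h3
    have h4 := measure_eq_zero_iff_ae_notMem.1 h3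
    filter_upwards [h4] with ω hω
    by_contra hcon
    apply hω
    intro N
    exact not_lt.1 fun hlt => hcon ⟨N, hlt⟩
  have hbir : ∀ N, ∀ᵐ ω ∂μ, Tendsto (fun n : ℕ => (n : ℝ)⁻¹ * ∑ k ∈ Finset.range n, D N (S^[k] ω))
      atTop (𝓝 (E N ω)) := fun N => birkhoff hS (D N) (hDm N) (2 * C) (hDabs N)
  rw [← ae_all_iff] at hsmall hbir
  filter_upwards [hsmall, hbir] with ω h1 h2
  rw [Metric.tendsto_atTop]
  intro ε hε
  obtain ⟨k, hk⟩ := exists_nat_one_div_lt (half_pos hε)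
  obtain ⟨N, hN⟩ := h1 k
  have h3 := h2 N
  have h4 : ∀ᶠ n : ℕ in atTop, (n : ℝ)⁻¹ * ∑ k ∈ Finset.range n, D N (S^[k] ω) < ε :=
    h3.eventually_lt_const (by linarith)
  obtain ⟨M, hM⟩ := eventually_atTop.1 h4
  refine ⟨max M N, fun n hn => ?_⟩
  have h5 := hM n (le_trans (le_max_left _ _) hn)
  have h6 : 0 ≤ (n : ℝ)⁻¹ * ∑ i ∈ Finset.range n, A n (S^[i] ω) :=
    mul_nonneg (by positivity) (Finset.sum_nonneg fun i _ => hA0 _ _)
  rw [Real.dist_eq, sub_zero]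
  show |(n : ℝ)⁻¹ * ∑ i ∈ Finset.range n, A n (S^[i] ω)| < ε
  rw [abs_of_nonneg h6]
  refine lt_of_le_of_lt ?_ h5
  refine mul_le_mul_of_nonneg_left (Finset.sum_le_sum fun i _ => ?_) (by positivity)
  exact hAD N n _ (le_trans (le_max_right _ _) hn)

end Pool.Agent.H415.LLP
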