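import Mathlib

/-!
# Strictly invariant versions of a.e. invariant functions.
-/

set_option autoImplicit false

open MeasureTheory Filter Topology

namespace Pool.Agent.H415.LLP

/-- A strictly invariant version of an a.e. invariant function.
Proof in words. Since `T` is measure preserving and `φ ∘ T = φ` a.e., for a.e. `ω` one has `φ (T^[n] ω) = φ ω` for all `n`
(induction; pull back null sets by `T^[n]`). Let `G = {ω | ∃ N, ∀ n ≥ N, φ (T^[n] ω) = φ (T^[N] ω)}`: the set of `ω` for which
the sequence `φ (T^[n] ω)` is eventually constant. It is measurable, strictly invariant (`T ⁻¹' G = G`) and contains a.e. `ω`.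
On `G` let `ψ ω` be the eventual value (positive), off `G` let `ψ ω = 1`.  Then `ψ (T ω) = ψ ω` everywhere and `ψ` is
measurable, hence `ψ` is measurable for `MeasurableSpace.invariants T` (see `MeasurableSpace.measurable_invariants_dom`
or show `ψ ⁻¹' s` is measurable and `T`-invariant, `MeasurableSpace.measurableSet_invariants`), and `ψ = φ` a.e.
(An alternative: `ψ = limsup` of the bounded sequence `arctan (φ (T^[n] ω))`, etc. Any construction will do.) -/
theorem inv_version {Ω : Type*} [MeasurableSpace Ω] {μ : Measure Ω} [IsProbabilityMeasure μ]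
    {T : Ω → Ω} (hT : MeasurePreserving T μ μ) {φ : Ω → ℝ} (hφ : Measurable φ)
    (hpos : ∀ ω, 0 < φ ω) (hinv : ∀ᵐ ω ∂μ, φ (T ω) = φ ω) :
    ∃ ψ : Ω → ℝ, Measurable[MeasurableSpace.invariants T] ψ ∧ (∀ ω, 0 < ψ ω) ∧
      ∀ᵐ ω ∂μ, ψ ω = φ ω := by
  have hall : ∀ᵐ ω ∂μ, ∀ n : ℕ, φ (T^[n] ω) = φ ω := by
    rw [ae_all_iff]
    intro n
    induction n with
    | zero => exact Filter.Eventually.of_forall fun _ => rfl
    | succ k ih =>
      have h1 : ∀ᵐ ω ∂μ, φ (T (T^[k] ω)) = φ (T^[k] ω) :=
        (hT.iterate k).quasiMeasurePreserving.ae hinv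
      filter_upwards [ih, h1] with ω h2 h3
      rw [Function.iterate_succ_apply', h3, h2]
  let u : Ω → ℝ := fun ω => limsup (fun n : ℕ => Real.arctan (φ (T^[n] ω))) atTop
  have hu : Measurable u := by
    refine Measurable.limsup fun n => ?_
    exact Real.measurable_arctan.comp (hφ.comp (hT.iterate n).measurable)
  have huT : ∀ ω, u (T ω) = u ω := by
    intro ω
    have h := Filter.limsup_nat_add (fun n : ℕ => Real.arctan (φ (T^[n] ω))) 1
    simp only [u]
    rw [← h]
    rfl
  classical
  let ψ : Ω → ℝ := fun ω => if 0 < u ω ∧ u ω < Real.pi / 2 then Real.tan (u ω) else 1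
  have hψT : ∀ ω, ψ (T ω) = ψ ω := by
    intro ω
    simp only [ψ, huT]
  have hset : MeasurableSet {ω | 0 < u ω ∧ u ω < Real.pi / 2} :=
    (measurableSet_lt measurable_const hu).inter (measurableSet_lt hu measurable_const)
  have hψ : Measurable ψ := by
    refine Measurable.ite hset ?_ measurable_const
    have htan : Measurable Real.tan := by
      have : Real.tan = fun x => Real.sin x / Real.cos x := by
        funext x; exact Real.tan_eq_sin_div_cos x
      rw [this]
      exact Real.measurable_sin.div Real.measurable_cos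
    exact htan.comp hu
  refine ⟨ψ, ?_, ?_, ?_⟩
  · intro t ht
    rw [MeasurableSpace.measurableSet_invariants]
    refine ⟨hψ ht, ?_⟩
    ext ω
    simp only [Set.mem_preimage, hψT]
  · intro ω
    simp only [ψ]
    split_ifs with h
    · exact Real.tan_pos_of_pos_of_lt_pi_div_two h.1 h.2
    · exact one_pos
  · filter_upwards [hall] with ω hω
    have h1 : u ω = Real.arctan (φ ω) := by
      simp only [u, hω]
      exact Filter.limsup_const _
    have h2 : 0 < u ω ∧ u ω < Real.pi / 2 := by
      rw [h1]
      exact ⟨Real.arctan_pos.mpr (hpos ω), Real.arctan_lt_pi_div_two _⟩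
    simp only [ψ, if_pos h2]
    rw [h1, Real.tan_arctan]

end Pool.Agent.H415.LLP


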