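import Mathlib

/-!
# Sinkhorn scaling of positive matrices
-/

set_option autoImplicit false

open Finset

namespace Pool.Agent.H415.LLP

/-- the potential -/
noncomputable def sinkG {n : ℕ} (B : Fin n → Fin n → ℝ) (y : Fin n → ℝ) : ℝ :=
  ∑ i, Real.log (∑ j, B i j * y j) - ∑ j, Real.log (y j)

theorem sinkG_smul {n : ℕ} (hn : 0 < n) (B : Fin n → Fin n → ℝ) (hB : ∀ i j, 0 < B i j)
    (y : Fin n → ℝ) (hy : ∀ j, 0 < y j) (s : ℝ) (hs : 0 < s) :
    sinkG B (fun j => s * y j) = sinkG B y := by
  have : Nonempty (Fin n) := ⟨⟨0, hn⟩⟩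
  unfold sinkG
  have h1 : ∀ i, Real.log (∑ j, B i j * (s * y j)) = Real.log s + Real.log (∑ j, B i j * y j) := by
    intro i
    have : ∑ j, B i j * (s * y j) = s * ∑ j, B i j * y j := by
      rw [Finset.mul_sum]
      exact Finset.sum_congr rfl fun j _ => by ring
    rw [this, Real.log_mul hs.ne']
    exact (Finset.sum_pos (fun j _ => mul_pos (hB i j) (hy j)) Finset.univ_nonempty).ne'
  have h2 : ∀ j, Real.log (s * y j) = Real.log s + Real.log (y j) := fun j =>
    Real.log_mul hs.ne' (hy j).ne'
  simp only [h1, h2, Finset.sum_add_distrib]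
  ring

theorem sinkG_lower {n : ℕ} (B : Fin n → Fin n → ℝ) (c : ℝ) (hc : 0 < c)
    (hcB : ∀ i j, c ≤ B i j) (y : Fin n → ℝ) (hy : ∀ j, 0 < y j) (hsum : ∑ j, y j = 1)
    (j : Fin n) : n * Real.log c - Real.log (y j) ≤ sinkG B y := by
  unfold sinkG
  have hy1 : ∀ k, y k ≤ 1 := by
    intro k
    rw [← hsum]
    exact Finset.single_le_sum (f := y) (fun i _ => (hy i).le) (Finset.mem_univ k)
  have h1 : (n : ℝ) * Real.log c ≤ ∑ i, Real.log (∑ j, B i j * y j) := by
    have : (n : ℝ) * Real.log c = ∑ _i : Fin n, Real.log c := by simp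
    rw [this]
    apply Finset.sum_le_sum
    intro i _
    apply Real.log_le_log hc
    calc c = ∑ j, c * y j := by rw [← Finset.mul_sum, hsum, mul_one]
      _ ≤ ∑ j, B i j * y j := Finset.sum_le_sum fun j _ =>
        mul_le_mul_of_nonneg_right (hcB i j) (hy j).le
  have h2 : ∑ k, Real.log (y k) ≤ Real.log (y j) := by
    rw [← Finset.add_sum_erase _ _ (Finset.mem_univ j)]
    have : ∑ k ∈ Finset.univ.erase j, Real.log (y k) ≤ 0 :=
      Finset.sum_nonpos fun k _ => Real.log_nonpos (hy k).le (hy1 k)
    linarith
  linarith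

/-- (Sinkhorn's theorem, existence, positive square matrices).
Proof in words. For `y` with positive entries put
`G y = ∑ i, log (∑ j, B i j * y j) - ∑ j, log (y j)`; `G (t • y) = G y` for `t > 0`.
Let `c > 0` be a lower bound of the entries. On the simplex `{y > 0, ∑ y = 1}` we have `∑ j, B i j * y j ≥ c`, so
`G y ≥ n log c - log (y j)` for every `j` (the other logarithms are `≤ 0`). With `y⁰ = 1/n` and `δ > 0` small
(`n log c - log δ ≥ G y⁰`, `δ ≤ 1/n`), a minimiser of the continuous function `G` over the compact set
`K = {y | ∀ j, δ ≤ y j, ∑ y = 1}` (nonempty, contains `y⁰`) is a minimiser of `G` over all positive `y`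
(normalise by homogeneity; outside `K` one has `G y ≥ G y⁰ ≥ min`).
At the minimiser `y` the function `t ↦ G (y + t e_j)` has a local minimum at `t = 0`; it is differentiable, so the
derivative vanishes: `∑ i, B i j / (∑ k, B i k * y k) = 1 / y j`.  Put `x i = 1 / ∑ k, B i k * y k`. The row sums are `1` by
definition and the column sums are `1` by the stationarity. -/
theorem sinkhorn {n : ℕ} (hn : 0 < n) (B : Fin n → Fin n → ℝ) (hB : ∀ i j, 0 < B i j) :
    ∃ x y : Fin n → ℝ, (∀ i, 0 < x i) ∧ (∀ j, 0 < y j) ∧
      (∀ i, ∑ j, x i * B i j * y j = 1) ∧ (∀ j, ∑ i, x i * B i j * y j = 1) := by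
  classical
  have : Nonempty (Fin n) := ⟨⟨0, hn⟩⟩
  have hn' : (0:ℝ) < n := by exact_mod_cast hn
  -- lower bound of the entries
  obtain ⟨c, hc, hcB⟩ : ∃ c > 0, ∀ i j, c ≤ B i j := by
    obtain ⟨p, hp⟩ := Finite.exists_min (fun p : Fin n × Fin n => B p.1 p.2)
    exact ⟨B p.1 p.2, hB _ _, fun i j => hp (i, j)⟩
  set y0 : Fin n → ℝ := fun _ => 1 / n with hy0
  set δ : ℝ := min (1 / n) (Real.exp (n * Real.log c - sinkG B y0)) with hδ
  have hδ0 : 0 < δ := lt_min (by positivity) (Real.exp_pos _)
  have hδ1 : δ ≤ 1 / n := min_le_left _ _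
  have hδ2 : Real.log δ ≤ n * Real.log c - sinkG B y0 := by
    rw [Real.log_le_iff_le_exp hδ0]
    exact min_le_right _ _
  set K : Set (Fin n → ℝ) := Set.Icc (fun _ => δ) (fun _ => 1) ∩ {y | ∑ j, y j = 1} with hK
  have hKc : IsCompact K := by
    apply isCompact_Icc.inter_right
    exact isClosed_eq (by fun_prop) continuous_const
  have hy0K : y0 ∈ K := by
    refine ⟨⟨fun _ => hδ1, fun _ => ?_⟩, ?_⟩
    · simp only [hy0]
      rw [div_le_one hn']
      exact_mod_cast hn
    · simp only [hy0, Set.mem_ofPred_eq, Finset.sum_const, Finset.card_univ, Fintype.card_fin,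
        nsmul_eq_mul]
      field_simp
  have hKpos : ∀ y ∈ K, ∀ j, 0 < y j := fun y hy j => hδ0.trans_le (hy.1.1 j)
  have hGc : ContinuousOn (sinkG B) K := by
    unfold sinkG
    apply ContinuousOn.sub
    · apply continuousOn_finsetSum
      intro i _
      apply ContinuousOn.log (by fun_prop)
      intro y hy
      exact (Finset.sum_pos (fun j _ => mul_pos (hB i j) (hKpos y hy j)) Finset.univ_nonempty).ne'
    · apply continuousOn_finsetSum
      intro i _
      apply ContinuousOn.log (by fun_prop)
      intro y hy
      exact (hKpos y hy i).ne'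
  obtain ⟨y, hyK, hymin⟩ := hKc.exists_isMinOn ⟨y0, hy0K⟩ hGc
  have hypos : ∀ j, 0 < y j := hKpos y hyK
  -- global minimality
  have hglob : ∀ z : Fin n → ℝ, (∀ j, 0 < z j) → sinkG B y ≤ sinkG B z := by
    intro z hz
    have hS : 0 < ∑ j, z j := Finset.sum_pos (fun j _ => hz j) Finset.univ_nonempty
    set w : Fin n → ℝ := fun j => (∑ j, z j)⁻¹ * z j with hw
    have hw1 : sinkG B w = sinkG B z := sinkG_smul hn B hB z hz _ (inv_pos.2 hS)
    have hwpos : ∀ j, 0 < w j := fun j => mul_pos (inv_pos.2 hS) (hz j)
    have hwsum : ∑ j, w j = 1 := by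
      simp only [hw]
      rw [← Finset.mul_sum]
      exact inv_mul_cancel₀ hS.ne'
    rw [← hw1]
    by_cases hall : ∀ j, δ ≤ w j
    · apply hymin
      refine ⟨⟨hall, fun j => ?_⟩, hwsum⟩
      rw [← hwsum]
      exact Finset.single_le_sum (f := w) (fun i _ => (hwpos i).le) (Finset.mem_univ j)
    · push Not at hall
      obtain ⟨j, hj⟩ := hall
      have h1 := sinkG_lower B c hc hcB w hwpos hwsum j
      have h2 : Real.log (w j) ≤ Real.log δ := Real.log_le_log (hwpos j) hj.le
      have h3 : sinkG B y ≤ sinkG B y0 := hymin hy0K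
      linarith
  set R : Fin n → ℝ := fun i => ∑ j, B i j * y j with hR
  have hRpos : ∀ i, 0 < R i := fun i =>
    Finset.sum_pos (fun j _ => mul_pos (hB i j) (hypos j)) Finset.univ_nonempty
  -- stationarity
  have hstat : ∀ j, ∑ i, B i j / R i = 1 / y j := by
    intro j
    set z : ℝ → Fin n → ℝ := fun s k => y k + if k = j then (s - y j) else 0 with hz
    have hG : ∀ s, 0 < s → sinkG B (z s) =
        ∑ i, Real.log (R i + B i j * (s - y j)) -
          (∑ k, Real.log (y k) + (Real.log s - Real.log (y j))) := by
      intro s hs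
      unfold sinkG
      congr 1
      · apply Finset.sum_congr rfl
        intro i _
        congr 1
        simp only [hz, mul_add, mul_ite, mul_zero, Finset.sum_add_distrib, Finset.sum_ite_eq',
          Finset.mem_univ, if_true, hR]
      · have : ∀ k, Real.log (z s k) = Real.log (y k) +
            if k = j then (Real.log s - Real.log (y j)) else 0 := by
          intro k
          simp only [hz]
          split_ifs with h
          · subst h
            have : y k + (s - y k) = s := by ring
            rw [this]
            ring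
          · simp
        simp only [this, Finset.sum_add_distrib, Finset.sum_ite_eq', Finset.mem_univ, if_true]
    set h : ℝ → ℝ := fun s => ∑ i, Real.log (R i + B i j * (s - y j)) -
          (∑ k, Real.log (y k) + (Real.log s - Real.log (y j))) with hh
    have hmin : IsLocalMin h (y j) := by
      have : ∀ᶠ s in nhds (y j), 0 < s := lt_mem_nhds (hypos j)
      filter_upwards [this] with s hs
      have e1 : h (y j) = sinkG B (z (y j)) := (hG _ (hypos j)).symm
      have e2 : h s = sinkG B (z s) := (hG s hs).symm
      have e3 : z (y j) = y := by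
        ext k
        simp [hz]
      rw [e1, e2, e3]
      apply hglob
      intro k
      simp only [hz]
      split_ifs with hk
      · subst hk
        linarith
      · simpa using hypos k
    have hder : HasDerivAt h (∑ i, B i j / R i - 1 / y j) (y j) := by
      apply HasDerivAt.sub
      · have hA : ∀ i ∈ (Finset.univ : Finset (Fin n)),
            HasDerivAt (fun s => Real.log (R i + B i j * (s - y j))) (B i j / R i) (y j) := by
          intro i _
          have h1 : HasDerivAt (fun s => R i + B i j * (s - y j)) (B i j) (y j) := by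
            have := (((hasDerivAt_id (y j)).sub_const (y j)).const_mul (B i j)).const_add (R i)
            simpa using this
          have h2 := h1.log (by simpa using (hRpos i).ne')
          simpa using h2
        have := HasDerivAt.fun_sum hA
        exact this
      · have h3 : HasDerivAt (fun s => (∑ k, Real.log (y k) + (Real.log s - Real.log (y j))))
            (1 / y j) (y j) := by
          have := ((Real.hasDerivAt_log (hypos j).ne').sub_const (Real.log (y j))).const_add
            (∑ k, Real.log (y k))
          simpa using this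
        exact h3
    have := hmin.hasDerivAt_eq_zero hder
    linarith
  refine ⟨fun i => 1 / R i, y, fun i => one_div_pos.2 (hRpos i), hypos, ?_, ?_⟩
  · intro i
    have : ∑ j, 1 / R i * B i j * y j = 1 / R i * R i := by
      rw [hR]
      simp only
      rw [Finset.mul_sum]
      exact Finset.sum_congr rfl fun j _ => by ring
    rw [this]
    exact one_div_mul_cancel (hRpos i).ne'
  · intro j
    have : ∑ i, 1 / R i * B i j * y j = (∑ i, B i j / R i) * y j := by
      rw [Finset.sum_mul]
      exact Finset.sum_congr rfl fun i _ => by ring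
    rw [this, hstat j]
    exact one_div_mul_cancel (hypos j).ne'

end Pool.Agent.H415.LLP

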