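import Mathlib
import Pool.Agent.H415.LLP.SinkMat
import Pool.Agent.H450R3.FgVdw3

/-!
# Lower bound of the permanental mean of a matrix whose row and column means
are close to `1` on average.
-/

set_option autoImplicit false

open Finset

namespace Pool.Agent.H415.LLP



/-- van der Waerden's inequality (starting file `Pool/Agent/H450R3/FgVdw3.lean`). -/
theorem vdw' {n : ℕ} (D : Fin n → Fin n → ℝ) (h0 : ∀ i j, 0 ≤ D i j) (hr : ∀ i, ∑ j, D i j = 1)
    (hc : ∀ j, ∑ i, D i j = 1) :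
    (n.factorial : ℝ) / (n : ℝ) ^ n ≤ ∑ σ : Equiv.Perm (Fin n), ∏ i, D i (σ i) := by
  have hA : (Matrix.of D) ∈ doublyStochastic ℝ (Fin n) := by
    rw [mem_doublyStochastic_iff_sum]
    exact ⟨fun i j => h0 i j, fun i => hr i, fun j => hc j⟩
  have h := Pool.Agent.H450R3.Fg.vdw hA
  rw [Pool.Agent.H450R3.Fg.GG_eq, Pool.Agent.H450R3.Fg.per_eq] at h
  exact h

/-- averages of a function with bounded differences -/
lemma m2_avg {n : ℕ} (hn : 0 < n) (a : Fin n → ℝ) (L : ℝ) (h : ∀ i k, a i - a k ≤ L) (i : Fin n) :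
    |a i - (∑ k, a k) / n| ≤ L := by
  have hn' : (0 : ℝ) < n := by exact_mod_cast hn
  have h1 : ∑ k : Fin n, (a i - a k) = n * a i - ∑ k, a k := by
    rw [sum_sub_distrib]
    simp
  have h2 : ∑ k : Fin n, (a i - a k) ≤ n * L := by
    calc ∑ k : Fin n, (a i - a k) ≤ ∑ _k : Fin n, L := sum_le_sum fun k _ => h i k
      _ = n * L := by simp
  have h3 : ∑ k : Fin n, (a k - a i) ≤ n * L := by
    calc ∑ k : Fin n, (a k - a i) ≤ ∑ _k : Fin n, L := sum_le_sum fun k _ => h k i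
      _ = n * L := by simp
  have h4 : ∑ k : Fin n, (a k - a i) = (∑ k, a k) - n * a i := by
    rw [sum_sub_distrib]
    simp
  rw [h1] at h2
  rw [h4] at h3
  have h5 : a i - (∑ k, a k) / n = (n * a i - ∑ k, a k) / n := by
    field_simp
  rw [h5, abs_le]
  constructor
  · rw [le_div_iff₀ hn']
    linarith
  · rw [div_le_iff₀ hn']
    linarith

lemma m2_sum_zero {n : ℕ} (hn : 0 < n) (a : Fin n → ℝ) : ∑ i, (a i - (∑ k, a k) / n) = 0 := by
  have hn' : (n : ℝ) ≠ 0 := by exact_mod_cast hn.ne'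
  rw [sum_sub_distrib]
  simp only [sum_const, card_univ, Fintype.card_fin, nsmul_eq_mul]
  field_simp
  ring

/-- ratio of two scaling factors -/
lemma m2_ratio {n : ℕ} (hn : 0 < n) (B : Fin n → Fin n → ℝ) (lo K : ℝ) (hlo : 0 < lo)
    (h0 : ∀ i j, lo ≤ B i j) (h1 : ∀ i j, B i j ≤ K * lo) (x y : Fin n → ℝ)
    (hx : ∀ i, 0 < x i) (hy : ∀ j, 0 < y j) (hr : ∀ i, ∑ j, x i * B i j * y j = 1) (i k : Fin n) :
    Real.log (x i) - Real.log (x k) ≤ Real.log K := by
  have hK : 1 ≤ K := by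
    have h2 := (h0 i k).trans (h1 i k)
    by_contra hc
    push Not at hc
    nlinarith
  have hne : (univ : Finset (Fin n)).Nonempty := ⟨i, mem_univ _⟩
  have hY : 0 < ∑ j, y j := sum_pos (fun j _ => hy j) hne
  have h3 : x i * (lo * ∑ j, y j) ≤ 1 := by
    rw [← hr i, mul_sum, mul_sum]
    refine sum_le_sum fun j _ => ?_
    have : x i * B i j * y j = x i * (B i j * y j) := by ring
    rw [this]
    exact mul_le_mul_of_nonneg_left (mul_le_mul_of_nonneg_right (h0 i j) (hy j).le) (hx i).le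
  have h4 : 1 ≤ x k * (K * lo * ∑ j, y j) := by
    rw [← hr k, mul_sum, mul_sum]
    refine sum_le_sum fun j _ => ?_
    have : x k * B k j * y j = x k * (B k j * y j) := by ring
    rw [this]
    exact mul_le_mul_of_nonneg_left (mul_le_mul_of_nonneg_right (h1 k j) (hy j).le) (hx k).le
  have hlY : 0 < lo * ∑ j, y j := mul_pos hlo hY
  have h5 : x i ≤ K * x k := by
    have h6 : x i * (lo * ∑ j, y j) ≤ (K * x k) * (lo * ∑ j, y j) := by
      calc x i * (lo * ∑ j, y j) ≤ 1 := h3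
        _ ≤ x k * (K * lo * ∑ j, y j) := h4
        _ = (K * x k) * (lo * ∑ j, y j) := by ring
    exact le_of_mul_le_mul_right h6 hlY
  have h7 := Real.log_le_log (hx i) h5
  rw [Real.log_mul (by linarith) (hx k).ne'] at h7
  linarith

/-- a weighted sum of a function of mean zero -/
lemma m2_corr {n : ℕ} (hn : 0 < n) (u r : Fin n → ℝ) (L : ℝ) (hu : ∑ i, u i = 0)
    (hL : ∀ i, |u i| ≤ L) :
    -(L * ((∑ i, |r i / n - 1|) / n)) ≤ (∑ i, u i * r i) / (n : ℝ) ^ 2 := by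
  have hn' : (0 : ℝ) < n := by exact_mod_cast hn
  have h1 : ∑ i, u i * r i = n * ∑ i, u i * (r i / n - 1) := by
    have h2 : ∑ i, u i * (r i / n - 1) = (∑ i, u i * r i) / n - ∑ i, u i := by
      rw [sum_div, ← sum_sub_distrib]
      refine sum_congr rfl fun i _ => ?_
      ring
    rw [h2, hu]
    field_simp
    ring
  have h3 : -(L * ∑ i, |r i / n - 1|) ≤ ∑ i, u i * (r i / n - 1) := by
    rw [mul_sum, ← sum_neg_distrib]
    refine sum_le_sum fun i _ => ?_
    have h4 : |u i * (r i / n - 1)| ≤ L * |r i / n - 1| := by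
      rw [abs_mul]
      exact mul_le_mul_of_nonneg_right (hL i) (abs_nonneg _)
    have h5 := neg_abs_le (u i * (r i / n - 1))
    linarith
  rw [h1, pow_two, mul_div_mul_left _ _ hn'.ne']
  have h6 : -(L * ((∑ i, |r i / n - 1|) / n)) = -(L * ∑ i, |r i / n - 1|) / n := by ring
  rw [h6]
  exact div_le_div_of_nonneg_right h3 hn'.le

/-- Lower bound of the permanental mean.
Proof in words. Take `x, y` from `sinkhorn`, `D i j = x i * B i j * y j`. Let `X = (1/n) ∑ log x i`, `Y = (1/n) ∑ log y j`,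
`u i = log x i - X`, `v j = log y j - Y` (so `∑ u = ∑ v = 0`), `L = log K`.
(a) `|u i| ≤ L`: for all `i k`, `x i * ∑ j, B i j y j = 1 = x k * ∑ j, B k j y j` with
`lo ∑ y ≤ ∑ j, B i j y j`, `∑ j, B k j y j ≤ K lo ∑ y`, so `x i / x k ≤ K`, `log x i - log x k ≤ L`; average over `k`
(and the reverse inequality). The same for `v`.
(b) `∏ i, D i (σ i) = (∏ x)(∏ y) ∏ B i (σ i)` (`Equiv.prod_comp`), `(∏ x)(∏ y) = exp (n (X + Y))`, so by `vdw'`
`per B / n! ≥ exp (-n (X+Y)) / n^n = (exp (-(X+Y)) / n)^n`.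
(c) `n = ∑ i, ∑ j, D i j = exp (X+Y) ∑ B i j exp (u i + v j) ≥ exp (X+Y) ∑ B i j (1 + u i + v j)`, hence, dividing by `n²`,
`exp (-(X+Y))/n ≥ (∑∑ B)/n² + (1/n) ∑ i (ρ i) (u i) + (1/n) ∑ j (κ j)(v j)` with `ρ i = (∑ j B i j)/n`, `κ j = (∑ i B i j)/n`,
and `∑ ρ i u i = ∑ (ρ i - 1) u i ≥ - L ∑ |ρ i - 1|`. So `exp (-(X+Y))/n ≥ q`, and `q ≥ 0` gives `q^n ≤ per B / n!`. -/
theorem per_ge {n : ℕ} (hn : 0 < n) (B : Fin n → Fin n → ℝ) (lo K : ℝ) (hlo : 0 < lo)
    (h0 : ∀ i j, lo ≤ B i j) (h1 : ∀ i j, B i j ≤ K * lo) (q : ℝ) (hq : 0 ≤ q)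
    (hq' : q ≤ (∑ i, ∑ j, B i j) / (n : ℝ) ^ 2 - Real.log K *
      ((∑ i, |(∑ j, B i j) / n - 1|) / n + (∑ j, |(∑ i, B i j) / n - 1|) / n)) :
    q ^ n ≤ (∑ σ : Equiv.Perm (Fin n), ∏ i, B i (σ i)) / (n.factorial : ℝ) := by
  have hn' : (0 : ℝ) < n := by exact_mod_cast hn
  obtain ⟨x, y, hx, hy, hr, hc⟩ := sinkhorn hn B (fun i j => hlo.trans_le (h0 i j))
  obtain ⟨X, hX⟩ : ∃ X, X = (∑ i, Real.log (x i)) / n := ⟨_, rfl⟩
  obtain ⟨Y, hY⟩ : ∃ Y, Y = (∑ j, Real.log (y j)) / n := ⟨_, rfl⟩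
  obtain ⟨u, hu⟩ : ∃ u : Fin n → ℝ, u = fun i => Real.log (x i) - X := ⟨_, rfl⟩
  obtain ⟨v, hv⟩ : ∃ v : Fin n → ℝ, v = fun j => Real.log (y j) - Y := ⟨_, rfl⟩
  have hu0 : ∑ i, u i = 0 := by
    rw [hu, hX]
    exact m2_sum_zero hn _
  have hv0 : ∑ j, v j = 0 := by
    rw [hv, hY]
    exact m2_sum_zero hn _
  have huL : ∀ i, |u i| ≤ Real.log K := by
    intro i
    rw [hu, hX]
    exact m2_avg hn _ _ (fun i k => m2_ratio hn B lo K hlo h0 h1 x y hx hy hr i k) i
  have hvL : ∀ j, |v j| ≤ Real.log K := by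
    intro j
    rw [hv, hY]
    refine m2_avg hn _ _ (fun i k => m2_ratio hn (fun j i => B i j) lo K hlo (fun a b => h0 b a)
      (fun a b => h1 b a) y x hy hx (fun j => ?_) i k) j
    rw [← hc j]
    refine sum_congr rfl fun i _ => ?_
    ring
  obtain ⟨E, hE⟩ : ∃ E, E = Real.exp (X + Y) := ⟨_, rfl⟩
  have hE0 : 0 < E := by rw [hE]; exact Real.exp_pos _
  -- (b)
  have hprod : (∏ i, x i) * (∏ j, y j) = E ^ n := by
    have h2 : ∀ z : Fin n → ℝ, (∀ i, 0 < z i) → ∏ i, z i = Real.exp (∑ i, Real.log (z i)) := by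
      intro z hz
      rw [Real.exp_sum]
      exact prod_congr rfl fun i _ => (Real.exp_log (hz i)).symm
    rw [h2 x hx, h2 y hy, ← Real.exp_add, hE, ← Real.exp_nat_mul]
    congr 1
    rw [hX, hY]
    field_simp
  have hper : ∑ σ : Equiv.Perm (Fin n), ∏ i, x i * B i (σ i) * y (σ i) =
      E ^ n * ∑ σ : Equiv.Perm (Fin n), ∏ i, B i (σ i) := by
    rw [mul_sum]
    refine sum_congr rfl fun σ _ => ?_
    rw [prod_mul_distrib, prod_mul_distrib, Equiv.prod_comp σ y, ← hprod]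
    ring
  have hvdw := vdw' (fun i j => x i * B i j * y j)
    (fun i j => mul_nonneg (mul_nonneg (hx i).le (hlo.le.trans (h0 i j))) (hy j).le) hr hc
  rw [hper] at hvdw
  have hfac : (0 : ℝ) < n.factorial := by exact_mod_cast n.factorial_pos
  have hb : (1 / (n * E)) ^ n ≤ (∑ σ : Equiv.Perm (Fin n), ∏ i, B i (σ i)) / (n.factorial : ℝ) := by
    rw [le_div_iff₀ hfac, div_pow, one_pow, mul_pow, div_mul_eq_mul_div, one_mul,
      div_le_iff₀ (by positivity)]
    rw [div_le_iff₀ (by positivity)] at hvdw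
    calc (n.factorial : ℝ) ≤ E ^ n * (∑ σ : Equiv.Perm (Fin n), ∏ i, B i (σ i)) * (n : ℝ) ^ n := hvdw
      _ = (∑ σ : Equiv.Perm (Fin n), ∏ i, B i (σ i)) * ((n : ℝ) ^ n * E ^ n) := by ring
  -- (c)
  have hsum : E * (∑ i, ∑ j, B i j + ∑ i, u i * ∑ j, B i j + ∑ j, v j * ∑ i, B i j) ≤ n := by
    have h2 : ∑ i : Fin n, ∑ j, x i * B i j * y j = n := by
      rw [sum_congr rfl fun i _ => hr i]
      simp
    have h3 : ∀ i j, E * (B i j + u i * B i j + v j * B i j) ≤ x i * B i j * y j := by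
      intro i j
      have h4 : x i = Real.exp (X + u i) := by
        rw [hu]
        simp only [add_sub_cancel]
        rw [Real.exp_log (hx i)]
      have h5 : y j = Real.exp (Y + v j) := by
        rw [hv]
        simp only [add_sub_cancel]
        rw [Real.exp_log (hy j)]
      have h6 : x i * B i j * y j = E * B i j * Real.exp (u i + v j) := by
        rw [h4, h5, hE]
        have h7 : Real.exp (X + u i) * B i j * Real.exp (Y + v j) =
            B i j * (Real.exp (X + u i) * Real.exp (Y + v j)) := by ring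
        have h8 : Real.exp (X + Y) * B i j * Real.exp (u i + v j) =
            B i j * (Real.exp (X + Y) * Real.exp (u i + v j)) := by ring
        rw [h7, h8, ← Real.exp_add, ← Real.exp_add]
        congr 2
        ring
      have h9 := Real.add_one_le_exp (u i + v j)
      rw [h6]
      calc E * (B i j + u i * B i j + v j * B i j) = E * B i j * (u i + v j + 1) := by ring
        _ ≤ E * B i j * Real.exp (u i + v j) :=
          mul_le_mul_of_nonneg_left h9 (mul_nonneg hE0.le (hlo.le.trans (h0 i j)))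
    calc E * (∑ i, ∑ j, B i j + ∑ i, u i * ∑ j, B i j + ∑ j, v j * ∑ i, B i j)
        = ∑ i, ∑ j, E * (B i j + u i * B i j + v j * B i j) := by
          have h10 : ∑ j, v j * ∑ i, B i j = ∑ i, ∑ j, v j * B i j := by
            rw [sum_comm]
            exact sum_congr rfl fun j _ => mul_sum _ _ _
          rw [h10]
          simp only [mul_add, sum_add_distrib, mul_sum]
      _ ≤ ∑ i, ∑ j, x i * B i j * y j := sum_le_sum fun i _ => sum_le_sum fun j _ => h3 i j
      _ = n := h2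
  have hc1 := m2_corr hn u (fun i => ∑ j, B i j) (Real.log K) hu0 huL
  have hc2 := m2_corr hn v (fun j => ∑ i, B i j) (Real.log K) hv0 hvL
  have hkey : q ≤ 1 / (n * E) := by
    have h2 : (∑ i, ∑ j, B i j + ∑ i, u i * ∑ j, B i j + ∑ j, v j * ∑ i, B i j) / (n : ℝ) ^ 2 ≤
        1 / (n * E) := by
      rw [div_le_div_iff₀ (by positivity) (by positivity)]
      nlinarith
    have h3 : (∑ i, ∑ j, B i j + ∑ i, u i * ∑ j, B i j + ∑ j, v j * ∑ i, B i j) / (n : ℝ) ^ 2 =
        (∑ i, ∑ j, B i j) / (n : ℝ) ^ 2 + (∑ i, u i * ∑ j, B i j) / (n : ℝ) ^ 2 +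
          (∑ j, v j * ∑ i, B i j) / (n : ℝ) ^ 2 := by
      rw [add_div, add_div]
    rw [h3] at h2
    refine hq'.trans ?_
    rw [mul_add]
    linarith
  exact (pow_le_pow_left₀ hq hkey n).trans hb

end Pool.Agent.H415.LLP

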