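import Mathlib
import Pool.Agent.Y372.PC.Breg

/-!
# Upper bound for permanents from Bregman's theorem by random rounding
-/

set_option autoImplicit false

open Finset

namespace Pool.Agent.H415.LLP

/-- Bregman's theorem (starting file `Pool/Agent/Y372/PC/Breg.lean`). -/
theorem bregman {n : ℕ} (S : Fin n → Finset (Fin n)) :
    (((Finset.univ.filter fun σ : Equiv.Perm (Fin n) => ∀ i, σ i ∈ S i).card : ℕ) : ℝ) ≤
      Real.exp (∑ i, Real.log ((S i).card.factorial : ℝ) / (S i).card) :=
  Pool.Agent.Y372.PC.bregman S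

/-- expansion of a product of sums over subsets -/
private theorem sum_ite_prod {n : ℕ} (p q : Fin n → ℝ) :
    ∑ s : Finset (Fin n), ∏ j, (if j ∈ s then p j else q j) = ∏ j, (p j + q j) := by
  rw [Finset.prod_add, Finset.powerset_univ]
  refine Finset.sum_congr rfl fun s _ => ?_
  rw [Finset.prod_ite]
  congr 1
  · refine Finset.prod_congr ?_ fun _ _ => rfl
    ext x; simp
  · refine Finset.prod_congr ?_ fun _ _ => rfl
    ext x; simp

private theorem sum_w_one {n : ℕ} (b : Fin n → ℝ) :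
    ∑ s : Finset (Fin n), ∏ j, (if j ∈ s then b j else 1 - b j) = 1 := by
  rw [sum_ite_prod]
  simp

private theorem sum_w_mem {n : ℕ} (b : Fin n → ℝ) (k : Fin n) :
    ∑ s : Finset (Fin n), (∏ j, (if j ∈ s then b j else 1 - b j)) * (if k ∈ s then 1 else 0) = b k := by
  have h1 : ∀ s : Finset (Fin n), (∏ j, (if j ∈ s then b j else 1 - b j)) * (if k ∈ s then 1 else 0)
      = ∏ j, (if j ∈ s then b j else (if j = k then 0 else 1 - b j)) := by
    intro s
    by_cases hk : k ∈ s
    · rw [if_pos hk, mul_one]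
      refine Finset.prod_congr rfl fun j _ => ?_
      by_cases hj : j ∈ s
      · simp [hj]
      · have : j ≠ k := fun h => hj (h ▸ hk)
        simp [hj, this]
    · rw [if_neg hk, mul_zero]
      symm
      refine Finset.prod_eq_zero (Finset.mem_univ k) ?_
      simp [hk]
  simp only [h1]
  rw [sum_ite_prod, Finset.prod_eq_single k]
  · simp
  · intro j _ hj
    simp [hj]
  · intro h
    exact absurd (Finset.mem_univ k) h

private theorem sum_w_card {n : ℕ} (b : Fin n → ℝ) :
    ∑ s : Finset (Fin n), (∏ j, (if j ∈ s then b j else 1 - b j)) * (s.card : ℝ) = ∑ j, b j := by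
  have h1 : ∀ s : Finset (Fin n), (s.card : ℝ) = ∑ k, (if k ∈ s then (1:ℝ) else 0) := by
    intro s
    simp
  calc ∑ s : Finset (Fin n), (∏ j, (if j ∈ s then b j else 1 - b j)) * (s.card : ℝ)
      = ∑ s : Finset (Fin n), ∑ k, (∏ j, (if j ∈ s then b j else 1 - b j)) * (if k ∈ s then (1:ℝ) else 0) := by
        refine Finset.sum_congr rfl fun s _ => ?_
        rw [h1, Finset.mul_sum]
    _ = ∑ k, ∑ s : Finset (Fin n), (∏ j, (if j ∈ s then b j else 1 - b j)) * (if k ∈ s then (1:ℝ) else 0) :=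
        Finset.sum_comm
    _ = ∑ j, b j := Finset.sum_congr rfl fun k _ => sum_w_mem b k

private theorem w_nonneg {n : ℕ} (b : Fin n → ℝ) (h0 : ∀ j, 0 ≤ b j) (h1 : ∀ j, b j ≤ 1) (s : Finset (Fin n)) :
    0 ≤ ∏ j, (if j ∈ s then b j else 1 - b j) := by
  refine Finset.prod_nonneg fun j _ => ?_
  split_ifs
  · exact h0 j
  · linarith [h1 j]

/-- the function in Bregman's bound -/
private noncomputable def phi (R : ℕ) : ℝ := Real.exp (Real.log (R.factorial : ℝ) / (R : ℝ))

private theorem log_fact_le (R : ℕ) (hR : 1 ≤ R) :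
    Real.log (R.factorial : ℝ) ≤ R * Real.log R - R + 1 + Real.log R := by
  induction R, hR using Nat.le_induction with
  | base => simp
  | succ R hR ih =>
    have hRpos : (0:ℝ) < R := by exact_mod_cast hR
    rw [Nat.factorial_succ, Nat.cast_mul, Real.log_mul (by positivity) (by positivity)]
    have h1 := Real.one_sub_inv_le_log_of_pos (x := ((R:ℝ) + 1) / R) (by positivity)
    rw [Real.log_div (by positivity) hRpos.ne'] at h1
    have h2 : 1 - (((R:ℝ) + 1) / R)⁻¹ = 1 / ((R:ℝ) + 1) := by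
      field_simp
      ring
    rw [h2, div_le_iff₀ (by positivity)] at h1
    push_cast
    nlinarith [h1, ih]

private theorem phi_le (n R : ℕ) (hn : 0 < n) (hR : R ≤ n) :
    phi R ≤ R / Real.exp 1 + (1 + Real.log n) := by
  have hlogn : 0 ≤ Real.log n := Real.log_nonneg (by exact_mod_cast hn)
  unfold phi
  rcases Nat.eq_zero_or_pos R with h0 | h0
  · subst h0
    simp
    linarith
  · have hRpos : (0:ℝ) < R := by exact_mod_cast h0
    have hR1 : (1:ℝ) ≤ R := by exact_mod_cast h0
    have hlogR : 0 ≤ Real.log R := Real.log_nonneg hR1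
    have hlogRn : Real.log R ≤ Real.log n := Real.log_le_log hRpos (by exact_mod_cast hR)
    set t : ℝ := (1 + Real.log R) / R with ht
    have ht0 : 0 ≤ t := by positivity
    have ht1 : t ≤ 1 := by
      rw [ht, div_le_one hRpos]
      have := Real.log_le_sub_one_of_pos hRpos
      linarith
    have h1 : Real.log (R.factorial : ℝ) / R ≤ Real.log R - 1 + t := by
      rw [div_le_iff₀ hRpos]
      have h2 := log_fact_le R h0
      have h3 : t * R = 1 + Real.log R := by rw [ht]; field_simp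
      nlinarith
    have h2 : Real.exp (Real.log (R.factorial : ℝ) / R) ≤ R / Real.exp 1 * Real.exp t := by
      refine (Real.exp_le_exp.2 h1).trans (le_of_eq ?_)
      rw [Real.exp_add, Real.exp_sub, Real.exp_log hRpos]
    have h3 : Real.exp t ≤ 1 + 2 * t := by
      have := Real.abs_exp_sub_one_sub_id_le (x := t) (by rw [abs_of_nonneg ht0]; exact ht1)
      have h4 := (abs_le.1 this).2
      nlinarith
    have he : (2:ℝ) ≤ Real.exp 1 := by
      have := Real.add_one_le_exp (1:ℝ)
      linarith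
    have hepos : 0 < Real.exp 1 := Real.exp_pos 1
    have h5 : R / Real.exp 1 * Real.exp t ≤ R / Real.exp 1 * (1 + 2 * t) :=
      mul_le_mul_of_nonneg_left h3 (by positivity)
    have h6 : R / Real.exp 1 * (1 + 2 * t) = R / Real.exp 1 + 2 / Real.exp 1 * (1 + Real.log R) := by
      rw [ht]
      field_simp
    have h7 : 2 / Real.exp 1 * (1 + Real.log R) ≤ 1 + Real.log n := by
      have h8 : 2 / Real.exp 1 ≤ 1 := by rw [div_le_one hepos]; exact he
      nlinarith
    calc Real.exp (Real.log (R.factorial : ℝ) / R) ≤ R / Real.exp 1 * Real.exp t := h2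
      _ ≤ R / Real.exp 1 * (1 + 2 * t) := h5
      _ = R / Real.exp 1 + 2 / Real.exp 1 * (1 + Real.log R) := h6
      _ ≤ R / Real.exp 1 + (1 + Real.log n) := by linarith

private theorem perm_upper_unit {n : ℕ} (hn : 0 < n) (b : Fin n → Fin n → ℝ)
    (h0 : ∀ i j, 0 ≤ b i j) (h1 : ∀ i j, b i j ≤ 1) :
    (∑ σ : Equiv.Perm (Fin n), ∏ i, b i (σ i)) ≤
      ∏ i, ((∑ j, b i j) / Real.exp 1 + (1 + Real.log n)) := by
  classical
  set w : Fin n → Finset (Fin n) → ℝ := fun i s => ∏ j, (if j ∈ s then b i j else 1 - b i j) with hw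
  have hw0 : ∀ i s, 0 ≤ w i s := fun i s => w_nonneg (b i) (h0 i) (h1 i) s
  have e1 : ∀ σ : Equiv.Perm (Fin n), ∏ i, b i (σ i) =
      ∑ S : Fin n → Finset (Fin n), (∏ i, w i (S i)) * (if ∀ i, σ i ∈ S i then 1 else 0) := by
    intro σ
    have h2 : ∏ i, b i (σ i) = ∏ i, ∑ s : Finset (Fin n), w i s * (if σ i ∈ s then (1:ℝ) else 0) :=
      Finset.prod_congr rfl fun i _ => (sum_w_mem (b i) (σ i)).symm
    rw [h2, Finset.prod_univ_sum, Fintype.piFinset_univ]
    refine Finset.sum_congr rfl fun S _ => ?_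
    rw [Finset.prod_mul_distrib, Finset.prod_boole]
    simp
  have e2 : (∑ σ : Equiv.Perm (Fin n), ∏ i, b i (σ i)) =
      ∑ S : Fin n → Finset (Fin n), (∏ i, w i (S i)) *
        (((Finset.univ.filter fun σ : Equiv.Perm (Fin n) => ∀ i, σ i ∈ S i).card : ℕ) : ℝ) := by
    simp only [e1]
    rw [Finset.sum_comm]
    refine Finset.sum_congr rfl fun S _ => ?_
    rw [← Finset.mul_sum, Finset.sum_boole]
  rw [e2]
  have e3 : (∑ S : Fin n → Finset (Fin n), (∏ i, w i (S i)) *
        (((Finset.univ.filter fun σ : Equiv.Perm (Fin n) => ∀ i, σ i ∈ S i).card : ℕ) : ℝ)) ≤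
      ∑ S : Fin n → Finset (Fin n), ∏ i, (w i (S i) * phi (S i).card) := by
    refine Finset.sum_le_sum fun S _ => ?_
    rw [Finset.prod_mul_distrib]
    refine mul_le_mul_of_nonneg_left ?_ (Finset.prod_nonneg fun i _ => hw0 i _)
    refine (bregman S).trans (le_of_eq ?_)
    rw [Real.exp_sum]
    rfl
  refine e3.trans ?_
  have e4 : (∑ S : Fin n → Finset (Fin n), ∏ i, (w i (S i) * phi (S i).card)) =
      ∏ i, ∑ s : Finset (Fin n), w i s * phi s.card := by
    rw [Finset.prod_univ_sum, Fintype.piFinset_univ]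
  rw [e4]
  refine Finset.prod_le_prod (fun i _ => Finset.sum_nonneg fun s _ => mul_nonneg (hw0 i s) (Real.exp_pos _).le)
    fun i _ => ?_
  calc ∑ s : Finset (Fin n), w i s * phi s.card
      ≤ ∑ s : Finset (Fin n), w i s * ((s.card : ℝ) / Real.exp 1 + (1 + Real.log n)) := by
        refine Finset.sum_le_sum fun s _ => mul_le_mul_of_nonneg_left ?_ (hw0 i s)
        refine phi_le n s.card hn ?_
        simpa using Finset.card_le_univ s
    _ = (∑ s : Finset (Fin n), w i s * (s.card : ℝ)) / Real.exp 1 +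
        (∑ s : Finset (Fin n), w i s) * (1 + Real.log n) := by
        rw [Finset.sum_div, Finset.sum_mul, ← Finset.sum_add_distrib]
        refine Finset.sum_congr rfl fun s _ => ?_
        ring
    _ = (∑ j, b i j) / Real.exp 1 + (1 + Real.log n) := by
        rw [show (∑ s : Finset (Fin n), w i s * (s.card : ℝ)) = ∑ j, b i j from sum_w_card (b i),
          show (∑ s : Finset (Fin n), w i s) = 1 from sum_w_one (b i), one_mul]

/-- Upper bound for the permanent of a nonnegative matrix with entries at most `H`.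
Proof in words.
Step 1. `b i j = B i j / H ∈ [0,1]`, `w i s = ∏ j, if j ∈ s then b i j else 1 - b i j` for `s : Finset (Fin n)`
(probability weights).  By `Finset.prod_add` (or `Finset.prod_add`-type expansion over `powerset univ`)
`∑ s, ∏ j, (if j ∈ s then p j else q j) = ∏ j, (p j + q j)`. Hence `∑ s, w i s = 1`,
`∑ s, w i s * (if j ∈ s then 1 else 0) = b i j` (replace `q j` by `0` at that index), `∑ s, w i s * s.card = ∑ j, b i j`.
Step 2. `∏ i, b i (σ i) = ∏ i, ∑ s, w i s * [σ i ∈ s] = ∑ S : Fin n → Finset (Fin n), ∏ i, w i (S i) * [σ i ∈ S i]`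
(`Finset.prod_univ_sum`, `Fintype.piFinset_univ`). Sum over `σ` and swap: `per b = ∑ S, (∏ i, w i (S i)) * #{σ | ∀ i, σ i ∈ S i}`
`≤ ∑ S, ∏ i, w i (S i) * φ (S i).card = ∏ i, ∑ s, w i s * φ s.card`, `φ R = exp (log R! / R)` (Bregman; `φ 0 = 1`).
Step 3. `log R! ≤ R log R - R + 1 + log R` for `R ≥ 1` by induction (uses `log (1+1/R) ≥ 1/(R+1)`), so with
`t = (1 + log R)/R ∈ [0,1]` one has `φ R ≤ (R/e) * exp t ≤ (R/e) (1 + 2 t) ≤ R/e + 1 + log n` for `1 ≤ R ≤ n`
(`exp t ≤ 1 + t + t²` from `Real.abs_exp_sub_one_sub_id_le`; `2/e ≤ 1`); also true for `R = 0`.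
Step 4. `∑ s, w i s * φ s.card ≤ (∑ j, b i j)/e + 1 + log n`; multiply the `n` factors by `H`. -/
theorem perm_upper {n : ℕ} (hn : 0 < n) (B : Fin n → Fin n → ℝ) (H : ℝ) (hH : 0 < H)
    (h0 : ∀ i j, 0 ≤ B i j) (h1 : ∀ i j, B i j ≤ H) :
    (∑ σ : Equiv.Perm (Fin n), ∏ i, B i (σ i)) ≤
      ∏ i, ((∑ j, B i j) / Real.exp 1 + H * (1 + Real.log n)) := by
  have key := perm_upper_unit hn (fun i j => B i j / H) (fun i j => div_nonneg (h0 i j) hH.le)
    (fun i j => (div_le_one hH).2 (h1 i j))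
  have hHn : (0:ℝ) ≤ H ^ n := by positivity
  have h2 := mul_le_mul_of_nonneg_left key hHn
  have e1 : H ^ n * ∑ σ : Equiv.Perm (Fin n), ∏ i, B i (σ i) / H =
      ∑ σ : Equiv.Perm (Fin n), ∏ i, B i (σ i) := by
    rw [Finset.mul_sum]
    refine Finset.sum_congr rfl fun σ _ => ?_
    rw [Finset.prod_div_distrib, Finset.prod_const, Finset.card_univ, Fintype.card_fin]
    field_simp
  have e2 : H ^ n * ∏ i, ((∑ j, B i j / H) / Real.exp 1 + (1 + Real.log n)) =
      ∏ i, ((∑ j, B i j) / Real.exp 1 + H * (1 + Real.log n)) := by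
    have hc : H ^ n = ∏ _i : Fin n, H := by
      rw [Finset.prod_const, Finset.card_univ, Fintype.card_fin]
    rw [hc, ← Finset.prod_mul_distrib]
    refine Finset.prod_congr rfl fun i _ => ?_
    rw [← Finset.sum_div]
    field_simp
  rw [e1, e2] at h2
  exact h2

end Pool.Agent.H415.LLP

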