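import Mathlib
import Pool.Agent.H415.LLP.Upper

/-!
# The permanental mean is at most the arithmetic mean up to `log n / n`.
-/

set_option autoImplicit false

open Finset

namespace Pool.Agent.H415.LLP



/-- Arithmetic-geometric mean over `Fin n`, in power form. -/
theorem prod_le_mean_pow {n : ℕ} (hn : 0 < n) (a : Fin n → ℝ) (ha : ∀ i, 0 ≤ a i) :
    ∏ i, a i ≤ ((∑ i, a i) / n) ^ n := by
  have hn' : (0 : ℝ) < n := by exact_mod_cast hn
  have h := Real.geom_mean_le_arith_mean_weighted (Finset.univ : Finset (Fin n))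
    (fun _ => (n : ℝ)⁻¹) a (fun _ _ => by positivity)
    (by simp [Finset.sum_const, Finset.card_univ]; field_simp) (fun i _ => ha i)
  have h2 : (∏ i, a i ^ ((n : ℝ)⁻¹)) ^ n = ∏ i, a i := by
    rw [← Finset.prod_pow]
    refine Finset.prod_congr rfl fun i _ => ?_
    exact Real.rpow_inv_natCast_pow (ha i) hn.ne'
  have h3 : (∑ i, (n : ℝ)⁻¹ * a i) = (∑ i, a i) / n := by
    rw [← Finset.mul_sum]; field_simp
  rw [h3] at h
  calc ∏ i, a i = (∏ i, a i ^ ((n : ℝ)⁻¹)) ^ n := h2.symm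
    _ ≤ ((∑ i, a i) / n) ^ n :=
      pow_le_pow_left₀ (Finset.prod_nonneg fun i _ => Real.rpow_nonneg (ha i) _) h n

/-- TARGET. -/
theorem per_le {n : ℕ} (hn : 0 < n) (B : Fin n → Fin n → ℝ) (H : ℝ) (hH : 0 < H)
    (h0 : ∀ i j, 0 ≤ B i j) (h1 : ∀ i j, B i j ≤ H) :
    (∑ σ : Equiv.Perm (Fin n), ∏ i, B i (σ i)) / (n.factorial : ℝ) ≤
      ((∑ i, ∑ j, B i j) / (n : ℝ) ^ 2 + Real.exp 1 * H * (1 + Real.log n) / n) ^ n := by
  have hn' : (0 : ℝ) < n := by exact_mod_cast hn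
  have hn1 : (1 : ℝ) ≤ n := by exact_mod_cast hn
  have hlog : 0 ≤ Real.log n := Real.log_nonneg hn1
  have hfac : (0 : ℝ) < (n.factorial : ℝ) := by exact_mod_cast n.factorial_pos
  set a : Fin n → ℝ := fun i => (∑ j, B i j) / Real.exp 1 + H * (1 + Real.log n) with hadef
  have ha : ∀ i, 0 ≤ a i := by
    intro i
    have : 0 ≤ ∑ j, B i j := Finset.sum_nonneg fun j _ => h0 i j
    have he := Real.exp_pos 1
    simp only [hadef]
    positivity
  have h1' := perm_upper hn B H hH h0 h1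
  have h2' := prod_le_mean_pow hn a ha
  have h3 : (∑ σ : Equiv.Perm (Fin n), ∏ i, B i (σ i)) ≤ ((∑ i, a i) / n) ^ n := h1'.trans h2'
  have h4 : (n : ℝ) ^ n / n.factorial ≤ Real.exp 1 ^ n := by
    have := Real.pow_div_factorial_le_exp (n : ℝ) hn'.le n
    calc (n : ℝ) ^ n / n.factorial ≤ Real.exp n := this
      _ = Real.exp 1 ^ n := by rw [← Real.exp_nat_mul, mul_one]
  have h5 : (1 : ℝ) / n.factorial ≤ (Real.exp 1 / n) ^ n := by
    rw [div_pow, le_div_iff₀ (by positivity)]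
    calc (1 : ℝ) / n.factorial * (n : ℝ) ^ n = (n : ℝ) ^ n / n.factorial := by ring
      _ ≤ _ := h4
  have h6 : (∑ i, a i) / n * (Real.exp 1 / n) =
      (∑ i, ∑ j, B i j) / (n : ℝ) ^ 2 + Real.exp 1 * H * (1 + Real.log n) / n := by
    have he : Real.exp 1 ≠ 0 := (Real.exp_pos 1).ne'
    have : ∑ i, a i = (∑ i, ∑ j, B i j) / Real.exp 1 + n * (H * (1 + Real.log n)) := by
      simp only [hadef, Finset.sum_add_distrib, Finset.sum_const, Finset.card_univ,
        Fintype.card_fin, nsmul_eq_mul, Finset.sum_div]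
    rw [this]
    field_simp
  have hA : 0 ≤ (∑ i, a i) / n := div_nonneg (Finset.sum_nonneg fun i _ => ha i) hn'.le
  calc (∑ σ : Equiv.Perm (Fin n), ∏ i, B i (σ i)) / (n.factorial : ℝ)
      = (∑ σ : Equiv.Perm (Fin n), ∏ i, B i (σ i)) * (1 / n.factorial) := by ring
    _ ≤ ((∑ i, a i) / n) ^ n * (1 / n.factorial) :=
        mul_le_mul_of_nonneg_right h3 (by positivity)
    _ ≤ ((∑ i, a i) / n) ^ n * (Real.exp 1 / n) ^ n :=
        mul_le_mul_of_nonneg_left h5 (pow_nonneg hA n)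
    _ = ((∑ i, a i) / n * (Real.exp 1 / n)) ^ n := (mul_pow _ _ _).symm
    _ = _ := by rw [h6]

end Pool.Agent.H415.LLP

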