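import Mathlib
import Pool.Agent.H415.LLP.Defs

/-!
# One Sinkhorn step for a conditional expectation.
-/

set_option autoImplicit false

open MeasureTheory Filter Topology

namespace Pool.Agent.H415.LLP

/-- One Sinkhorn step for a conditional expectation.
Proof in words. Let `E = μ[F | m0]` and `e = max lo (min hi E)`, which is `m0`-measurable (`stronglyMeasurable_condExp`) with
values in `[lo, hi]` and a.e. equal to `E`. By pull-out (`condExp_mul_of_stronglyMeasurable_left`, all functions bounded)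
`μ[e⁻¹ F | m0] = e⁻¹ E = 1` a.e.; integrating (`integral_condExp`), `∫ e⁻¹ F = 1`. For an `m0`-measurable positive `g` with
bounded logarithm `∫ g F = ∫ μ[g F | m0] = ∫ g E = ∫ g e`, and `∫ g e ≥ exp (∫ log (g e)) = gm g * gm e` because, with
`I = ∫ log (g e)`, `g e = exp I * exp (log (g e) - I) ≥ exp I * (1 + log (g e) - I)` pointwise. -/
theorem step {Ω : Type*} {m0 m : MeasurableSpace Ω} (hm : m0 ≤ m) {μ : Measure Ω}
    [IsProbabilityMeasure μ] {F : Ω → ℝ} (hF : Measurable F) {C : ℝ} (hC : ∀ ω, |F ω| ≤ C)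
    {lo hi : ℝ} (hlo : 0 < lo)
    (h1 : ∀ᵐ ω ∂μ, lo ≤ (μ[F | m0]) ω ∧ (μ[F | m0]) ω ≤ hi) :
    ∃ e : Ω → ℝ, Measurable[m0] e ∧ (∀ ω, lo ≤ e ω ∧ e ω ≤ max lo hi) ∧
      (∀ᵐ ω ∂μ, e ω = (μ[F | m0]) ω) ∧
      (∀ᵐ ω ∂μ, (μ[fun ω => (e ω)⁻¹ * F ω | m0]) ω = 1) ∧
      (∫ ω, (e ω)⁻¹ * F ω ∂μ = 1) ∧
      ∀ g : Ω → ℝ, Measurable[m0] g → (∀ ω, 0 < g ω) → (∃ M : ℝ, ∀ ω, |Real.log (g ω)| ≤ M) →
        gm μ g * gm μ e ≤ ∫ ω, g ω * F ω ∂μ := by
  have hFi : Integrable F μ :=
    Integrable.of_bound hF.aestronglyMeasurable C (Eventually.of_forall fun ω => hC ω)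
  have hEm : Measurable[m0] (μ[F | m0]) := stronglyMeasurable_condExp.measurable
  set E : Ω → ℝ := μ[F | m0] with hE
  have hem : Measurable[m0] (fun ω => max lo (min hi (E ω))) :=
    Measurable.max measurable_const (Measurable.min measurable_const hEm)
  obtain ⟨e, he⟩ : ∃ e : Ω → ℝ, e = fun ω => max lo (min hi (E ω)) := ⟨_, rfl⟩
  rw [← he] at hem
  have hb : ∀ ω, lo ≤ e ω ∧ e ω ≤ max lo hi := by
    intro ω
    rw [he]
    exact ⟨le_max_left _ _, max_le_max le_rfl (min_le_left _ _)⟩
  have hae : ∀ᵐ ω ∂μ, e ω = E ω := by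
    filter_upwards [h1] with ω hω
    rw [he]
    show max lo (min hi (E ω)) = E ω
    rw [min_eq_right hω.2, max_eq_right hω.1]
  have hpos : ∀ ω, 0 < e ω := fun ω => hlo.trans_le (hb ω).1
  have hemm : Measurable e := hem.mono hm le_rfl
  have hinvm : Measurable[m0] (fun ω => (e ω)⁻¹) := hem.inv
  have hi1 : Integrable (fun ω => (e ω)⁻¹ * F ω) μ := by
    refine Integrable.of_bound (hemm.inv.mul hF).aestronglyMeasurable (lo⁻¹ * C)
      (Eventually.of_forall fun ω => ?_)
    show |(e ω)⁻¹ * F ω| ≤ lo⁻¹ * C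
    rw [abs_mul, abs_of_pos (inv_pos.2 (hpos ω))]
    exact mul_le_mul (inv_anti₀ hlo (hb ω).1) (hC ω) (abs_nonneg _) (inv_nonneg.2 hlo.le)
  have h4 : ∀ᵐ ω ∂μ, (μ[fun ω => (e ω)⁻¹ * F ω | m0]) ω = 1 := by
    have h5 := condExp_mul_of_stronglyMeasurable_left (μ := μ) (m := m0) (f := fun ω => (e ω)⁻¹) (g := F)
      hinvm.stronglyMeasurable hi1 hFi
    filter_upwards [h5, hae] with ω h6 h7
    have h8 : (μ[fun ω => (e ω)⁻¹ * F ω | m0]) ω = (e ω)⁻¹ * E ω := h6
    rw [h8, ← h7, inv_mul_cancel₀ (hpos ω).ne']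
  refine ⟨e, hem, hb, hae, h4, ?_, ?_⟩
  · rw [← integral_condExp hm (μ := μ) (f := fun ω => (e ω)⁻¹ * F ω), integral_congr_ae h4]
    simp
  · intro g hg hg0 ⟨M, hM⟩
    have hgm : Measurable g := hg.mono hm le_rfl
    have hgle : ∀ ω, g ω ≤ Real.exp M := by
      intro ω
      rw [← Real.exp_log (hg0 ω)]
      exact Real.exp_le_exp.2 ((le_abs_self _).trans (hM ω))
    have hgi : Integrable g μ := by
      refine Integrable.of_bound hgm.aestronglyMeasurable (Real.exp M) (Eventually.of_forall fun ω => ?_)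
      rw [Real.norm_eq_abs, abs_of_pos (hg0 ω)]
      exact hgle ω
    have hgF : Integrable (fun ω => g ω * F ω) μ := by
      refine Integrable.of_bound (hgm.mul hF).aestronglyMeasurable (Real.exp M * C)
        (Eventually.of_forall fun ω => ?_)
      show |g ω * F ω| ≤ Real.exp M * C
      rw [abs_mul, abs_of_pos (hg0 ω)]
      exact mul_le_mul (hgle ω) (hC ω) (abs_nonneg _) (Real.exp_pos _).le
    have hge : Integrable (fun ω => g ω * e ω) μ := by
      refine Integrable.of_bound (hgm.mul hemm).aestronglyMeasurable (Real.exp M * max lo hi)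
        (Eventually.of_forall fun ω => ?_)
      show |g ω * e ω| ≤ Real.exp M * max lo hi
      rw [abs_mul, abs_of_pos (hg0 ω), abs_of_pos (hpos ω)]
      exact mul_le_mul (hgle ω) (hb ω).2 (hpos ω).le (Real.exp_pos _).le
    have hint : ∫ ω, g ω * F ω ∂μ = ∫ ω, g ω * e ω ∂μ := by
      rw [← integral_condExp hm (μ := μ) (f := fun ω => g ω * F ω)]
      refine integral_congr_ae ?_
      have h5 := condExp_mul_of_stronglyMeasurable_left (μ := μ) (m := m0) (f := g) (g := F)
        hg.stronglyMeasurable hgF hFi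
      filter_upwards [h5, hae] with ω h6 h7
      have h8 : (μ[fun ω => g ω * F ω | m0]) ω = g ω * E ω := h6
      rw [h8, h7]
    rw [hint]
    have hlg : Integrable (fun ω => Real.log (g ω)) μ :=
      Integrable.of_bound (Real.measurable_log.comp hgm).aestronglyMeasurable M
        (Eventually.of_forall fun ω => hM ω)
    have hle : Integrable (fun ω => Real.log (e ω)) μ := by
      refine Integrable.of_bound (Real.measurable_log.comp hemm).aestronglyMeasurable
        (max |Real.log lo| |Real.log (max lo hi)|) (Eventually.of_forall fun ω => ?_)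
      rw [Real.norm_eq_abs, abs_le]
      have g1 := Real.log_le_log hlo (hb ω).1
      have g2 := Real.log_le_log (hpos ω) (hb ω).2
      have g3 := neg_abs_le (Real.log lo)
      have g4 := le_abs_self (Real.log (max lo hi))
      have g5 := le_max_left |Real.log lo| |Real.log (max lo hi)|
      have g6 := le_max_right |Real.log lo| |Real.log (max lo hi)|
      constructor <;> linarith
    unfold gm
    rw [← Real.exp_add, ← integral_add hlg hle]
    set I : ℝ := ∫ ω, (Real.log (g ω) + Real.log (e ω)) ∂μ with hI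
    have hsum : Integrable (fun ω => Real.log (g ω) + Real.log (e ω)) μ := hlg.add hle
    have hone : Integrable (fun ω => 1 + (Real.log (g ω) + Real.log (e ω))) μ :=
      (integrable_const (1 : ℝ)).add hsum
    have hpt : ∀ ω, Real.exp I * (1 + (Real.log (g ω) + Real.log (e ω)) - I) ≤ g ω * e ω := by
      intro ω
      have k1 : g ω * e ω = Real.exp I * Real.exp (Real.log (g ω) + Real.log (e ω) - I) := by
        rw [← Real.exp_add]
        have : I + (Real.log (g ω) + Real.log (e ω) - I) = Real.log (g ω) + Real.log (e ω) := by ring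
        rw [this, Real.exp_add, Real.exp_log (hg0 ω), Real.exp_log (hpos ω)]
      rw [k1]
      refine mul_le_mul_of_nonneg_left ?_ (Real.exp_pos _).le
      have := Real.add_one_le_exp (Real.log (g ω) + Real.log (e ω) - I)
      linarith
    have hi2 : Integrable (fun ω => Real.exp I * (1 + (Real.log (g ω) + Real.log (e ω)) - I)) μ :=
      (hone.sub (integrable_const I)).const_mul _
    have hval : ∫ ω, Real.exp I * (1 + (Real.log (g ω) + Real.log (e ω)) - I) ∂μ = Real.exp I := by
      rw [integral_const_mul, integral_sub hone (integrable_const I),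
        integral_add (integrable_const (1 : ℝ)) hsum, ← hI]
      simp
    calc Real.exp I = ∫ ω, Real.exp I * (1 + (Real.log (g ω) + Real.log (e ω)) - I) ∂μ := hval.symm
      _ ≤ ∫ ω, g ω * e ω ∂μ := integral_mono hi2 hge hpt

end Pool.Agent.H415.LLP

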