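import Mathlib
import Pool.Agent.H415.LLP.Defs

/-!
# The scaling mean is the infimum over bounded functions.
-/

set_option autoImplicit false
set_option linter.unusedSectionVars false

open MeasureTheory Filter Topology
open scoped ENNReal

namespace Pool.Agent.H415.LLP

variable {Ω : Type*} [MeasurableSpace Ω]

theorem inv_meas {T : Ω → Ω} {g : Ω → ℝ} (hg : Measurable[MeasurableSpace.invariants T] g) :
    Measurable g := hg.mono (MeasurableSpace.invariants_le T) le_rfl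

theorem Bd.meas {T : Ω → Ω} {g : Ω → ℝ} (h : Bd T g) : Measurable g := inv_meas h.1

theorem Bd.pos {T : Ω → Ω} {g : Ω → ℝ} (h : Bd T g) (ω : Ω) : 0 < g ω := by
  obtain ⟨M, hM, h⟩ := h.2
  exact lt_of_lt_of_le (inv_pos.2 hM) (h ω).1

theorem Bd.log_int (μ : Measure Ω) [IsProbabilityMeasure μ] {T : Ω → Ω} {g : Ω → ℝ}
    (h : Bd T g) : Integrable (fun ω => Real.log (g ω)) μ := by
  obtain ⟨M, hM, hb⟩ := h.2
  refine Integrable.of_bound (Real.measurable_log.comp h.meas).aestronglyMeasurable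
    (|Real.log M|) (ae_of_all _ fun ω => ?_)
  rw [Real.norm_eq_abs, abs_le]
  have h1 := Real.log_le_log (inv_pos.2 hM) (hb ω).1
  have h2 := Real.log_le_log (h.pos ω) (hb ω).2
  rw [Real.log_inv] at h1
  constructor <;> linarith [le_abs_self (Real.log M), neg_abs_le (Real.log M)]

theorem Bd.inG (μ : Measure Ω) [IsProbabilityMeasure μ] {T : Ω → Ω} {g : Ω → ℝ}
    (h : Bd T g) : InG μ T g := ⟨h.1, h.pos, h.log_int μ⟩

theorem gm_pos_tr (μ : Measure Ω) (φ : Ω → ℝ) : 0 < gm μ φ := Real.exp_pos _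

theorem prod_int (μ : Measure Ω) [IsProbabilityMeasure μ] {T₁ T₂ : Ω → Ω} {f g₁ g₂ : Ω → ℝ}
    (hf : Measurable f) {b : ℝ} (hf0 : ∀ ω, 0 ≤ f ω) (hfb : ∀ ω, f ω ≤ b)
    (h1 : Bd T₁ g₁) (h2 : Bd T₂ g₂) : Integrable (fun ω => g₁ ω * f ω * g₂ ω) μ := by
  obtain ⟨M, hM, hb1⟩ := h1.2
  obtain ⟨M', hM', hb2⟩ := h2.2
  refine Integrable.of_bound ((h1.meas.mul hf).mul h2.meas).aestronglyMeasurable
    (M * b * M') (ae_of_all _ fun ω => ?_)
  have e1 := (h1.pos ω).le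
  have e2 := (h2.pos ω).le
  rw [Real.norm_eq_abs, abs_of_nonneg (mul_nonneg (mul_nonneg e1 (hf0 ω)) e2)]
  have e3 : g₁ ω * f ω ≤ M * b := mul_le_mul (hb1 ω).2 (hfb ω) (hf0 ω) hM.le
  exact mul_le_mul e3 (hb2 ω).2 e2 ((mul_nonneg e1 (hf0 ω)).trans e3)

theorem jensen (μ : Measure Ω) [IsProbabilityMeasure μ] {T₁ T₂ : Ω → Ω} {g₁ g₂ : Ω → ℝ}
    (h1 : Bd T₁ g₁) (h2 : Bd T₂ g₂) : gm μ g₁ * gm μ g₂ ≤ ∫ ω, g₁ ω * g₂ ω ∂μ := by
  have hint : Integrable (fun ω => g₁ ω * g₂ ω) μ := by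
    have := prod_int μ (f := fun _ => 1) measurable_const (b := 1) (fun _ => zero_le_one)
      (fun _ => le_rfl) h1 h2
    simpa using this
  unfold gm
  rw [← Real.exp_add, ← integral_add (h1.log_int μ) (h2.log_int μ)]
  set c := ∫ ω, (Real.log (g₁ ω) + Real.log (g₂ ω)) ∂μ with hc
  have hli : Integrable (fun ω => Real.log (g₁ ω) + Real.log (g₂ ω)) μ :=
    (h1.log_int μ).add (h2.log_int μ)
  have hpt : ∀ ω, Real.exp c * (1 + (Real.log (g₁ ω) + Real.log (g₂ ω) - c)) ≤ g₁ ω * g₂ ω := by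
    intro ω
    have h3 := Real.add_one_le_exp (Real.log (g₁ ω) + Real.log (g₂ ω) - c)
    have e : g₁ ω * g₂ ω = Real.exp c * Real.exp (Real.log (g₁ ω) + Real.log (g₂ ω) - c) := by
      rw [← Real.exp_add, add_sub_cancel, Real.exp_add, Real.exp_log (h1.pos ω),
        Real.exp_log (h2.pos ω)]
    rw [e]
    exact mul_le_mul_of_nonneg_left (by linarith) (Real.exp_pos c).le
  have hi2 : Integrable (fun ω => Real.exp c * (1 + (Real.log (g₁ ω) + Real.log (g₂ ω) - c))) μ :=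
    ((integrable_const (1 : ℝ)).add (hli.sub (integrable_const c))).const_mul _
  calc Real.exp c = ∫ ω, Real.exp c * (1 + (Real.log (g₁ ω) + Real.log (g₂ ω) - c)) ∂μ := by
        have e1 : ∫ ω, (1 + (Real.log (g₁ ω) + Real.log (g₂ ω) - c)) ∂μ = 1 := by
          have e2 : (fun ω => 1 + (Real.log (g₁ ω) + Real.log (g₂ ω) - c)) =
              fun ω => (Real.log (g₁ ω) + Real.log (g₂ ω)) + (1 - c) := by
            funext ω
            ring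
          rw [e2, integral_add hli (integrable_const _), ← hc]
          simp
        rw [integral_const_mul, e1, mul_one]
    _ ≤ _ := integral_mono hi2 hint hpt

/-- truncation -/
noncomputable def tr (k : ℕ) (g : Ω → ℝ) (ω : Ω) : ℝ := max (min (g ω) ((k : ℝ) + 1)) ((k : ℝ) + 1)⁻¹

theorem tr_bd (k : ℕ) {T : Ω → Ω} {g : Ω → ℝ}
    (hg : Measurable[MeasurableSpace.invariants T] g) : Bd T (tr k g) := by
  refine ⟨?_, (k : ℝ) + 1, by positivity, fun ω => ⟨le_max_right _ _, ?_⟩⟩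
  · exact (hg.min measurable_const).max measurable_const
  · refine max_le (min_le_right _ _) ?_
    have h1 : (1 : ℝ) ≤ (k : ℝ) + 1 := by linarith [Nat.cast_nonneg (α := ℝ) k]
    exact (inv_le_one_of_one_le₀ h1).trans h1

theorem tr_le (k : ℕ) {g : Ω → ℝ} (ω : Ω) (hg : 0 < g ω) :
    tr k g ω ≤ min (g ω) ((k : ℝ) + 1) + ((k : ℝ) + 1)⁻¹ := by
  have h1 : (0 : ℝ) < (k : ℝ) + 1 := by positivity
  have h2 : 0 < min (g ω) ((k : ℝ) + 1) := lt_min hg h1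
  have h3 : (0 : ℝ) < ((k : ℝ) + 1)⁻¹ := inv_pos.2 h1
  exact max_le (by linarith) (by linarith)

theorem tr_mul_le (k : ℕ) {g₁ g₂ : Ω → ℝ} (ω : Ω) (h1 : 0 < g₁ ω) (h2 : 0 < g₂ ω) :
    tr k g₁ ω * tr k g₂ ω ≤ g₁ ω * g₂ ω + 3 := by
  have hK : (0 : ℝ) < (k : ℝ) + 1 := by positivity
  have hK1 : (1 : ℝ) ≤ (k : ℝ) + 1 := by linarith [Nat.cast_nonneg (α := ℝ) k]
  set K := (k : ℝ) + 1 with hKd
  have hi0 : 0 < K⁻¹ := inv_pos.2 hK
  have hi1 : K⁻¹ ≤ 1 := inv_le_one_of_one_le₀ hK1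
  have hKi : K * K⁻¹ = 1 := mul_inv_cancel₀ hK.ne'
  have a1 := tr_le k ω h1
  have a2 := tr_le k ω h2
  have b1 : 0 < min (g₁ ω) K := lt_min h1 hK
  have b2 : 0 < min (g₂ ω) K := lt_min h2 hK
  have c1 := min_le_left (g₁ ω) K
  have c2 := min_le_left (g₂ ω) K
  have d1 := min_le_right (g₁ ω) K
  have d2 := min_le_right (g₂ ω) K
  have p2 : 0 ≤ tr k g₂ ω := le_trans hi0.le (le_max_right _ _)
  calc tr k g₁ ω * tr k g₂ ω ≤ (min (g₁ ω) K + K⁻¹) * (min (g₂ ω) K + K⁻¹) :=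
        mul_le_mul a1 a2 p2 (by linarith)
    _ = min (g₁ ω) K * min (g₂ ω) K + min (g₁ ω) K * K⁻¹ + min (g₂ ω) K * K⁻¹ + K⁻¹ * K⁻¹ := by
        ring
    _ ≤ g₁ ω * g₂ ω + 1 + 1 + 1 := by
        have e1 : min (g₁ ω) K * min (g₂ ω) K ≤ g₁ ω * g₂ ω := mul_le_mul c1 c2 b2.le h1.le
        have e2 : min (g₁ ω) K * K⁻¹ ≤ 1 := by
          rw [← hKi]; exact mul_le_mul_of_nonneg_right d1 hi0.le
        have e3 : min (g₂ ω) K * K⁻¹ ≤ 1 := by
          rw [← hKi]; exact mul_le_mul_of_nonneg_right d2 hi0.le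
        have e4 : K⁻¹ * K⁻¹ ≤ 1 := mul_le_one₀ hi1 hi0.le hi1
        linarith
    _ = g₁ ω * g₂ ω + 3 := by ring

theorem tr_tendsto {g : Ω → ℝ} (ω : Ω) (hg : 0 < g ω) :
    Tendsto (fun k : ℕ => tr k g ω) atTop (𝓝 (g ω)) := by
  obtain ⟨n, hn⟩ := exists_nat_ge (max (g ω) (g ω)⁻¹)
  refine tendsto_const_nhds.congr' ?_
  filter_upwards [eventually_ge_atTop n] with k hk
  have hk' : (n : ℝ) ≤ k := by exact_mod_cast hk
  have h1 : g ω ≤ (k : ℝ) + 1 := by linarith [le_max_left (g ω) (g ω)⁻¹]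
  have h2 : (g ω)⁻¹ ≤ (k : ℝ) + 1 := by linarith [le_max_right (g ω) (g ω)⁻¹]
  unfold tr
  rw [min_eq_left h1, max_eq_left]
  exact inv_le_of_inv_le₀ hg h2

theorem log_tr_le (k : ℕ) {g : Ω → ℝ} (ω : Ω) (hg : 0 < g ω) :
    |Real.log (tr k g ω)| ≤ |Real.log (g ω)| := by
  have hK : (0 : ℝ) < (k : ℝ) + 1 := by positivity
  have hK1 : (1 : ℝ) ≤ (k : ℝ) + 1 := by linarith [Nat.cast_nonneg (α := ℝ) k]
  unfold tr
  set K := (k : ℝ) + 1 with hKd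
  have hi0 : 0 < K⁻¹ := inv_pos.2 hK
  have hi1 : K⁻¹ ≤ 1 := inv_le_one_of_one_le₀ hK1
  have hlK : 0 ≤ Real.log K := Real.log_nonneg hK1
  rcases le_total (g ω) K with h | h
  · rw [min_eq_left h]
    rcases le_total (g ω) K⁻¹ with h' | h'
    · rw [max_eq_right h', Real.log_inv, abs_neg, abs_of_nonneg hlK]
      have h3 := Real.log_le_log hg h'
      rw [Real.log_inv] at h3
      rw [abs_of_nonpos (by linarith)]
      linarith
    · rw [max_eq_left h']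
  · rw [min_eq_right h, max_eq_left (hi1.trans hK1), abs_of_nonneg hlK]
    exact (Real.log_le_log hK h).trans (le_abs_self _)

theorem gm_tendsto (μ : Measure Ω) [IsProbabilityMeasure μ] {T : Ω → Ω} {g : Ω → ℝ}
    (hg : InG μ T g) : Tendsto (fun k : ℕ => gm μ (tr k g)) atTop (𝓝 (gm μ g)) := by
  unfold gm
  refine (Real.continuous_exp.tendsto _).comp ?_
  refine tendsto_integral_of_dominated_convergence (fun ω => |Real.log (g ω)|) ?_ hg.logInt.abs ?_ ?_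
  · intro k
    exact (Real.measurable_log.comp (tr_bd k hg.meas).meas).aestronglyMeasurable
  · intro k
    exact ae_of_all _ fun ω => by
      rw [Real.norm_eq_abs]; exact log_tr_le k ω (hg.pos ω)
  · exact ae_of_all _ fun ω => (tr_tendsto ω (hg.pos ω)).log (hg.pos ω).ne'

/-- TARGET. -/
theorem smean_eq (μ : Measure Ω) [IsProbabilityMeasure μ] (T₁ T₂ : Ω → Ω) {f : Ω → ℝ}
    (hf : Measurable f) {a b : ℝ} (ha : 0 < a) (hfa : ∀ ω, a ≤ f ω) (hfb : ∀ ω, f ω ≤ b) :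
    a ≤ s0 μ T₁ T₂ f ∧ (∀ g₁ g₂ : Ω → ℝ, Bd T₁ g₁ → Bd T₂ g₂ → s0 μ T₁ T₂ f ≤ J μ f g₁ g₂) ∧
      smean μ T₁ T₂ f = ENNReal.ofReal (s0 μ T₁ T₂ f) := by
  have hf0 : ∀ ω, 0 ≤ f ω := fun ω => ha.le.trans (hfa ω)
  have hJ : ∀ g₁ g₂ : Ω → ℝ, Bd T₁ g₁ → Bd T₂ g₂ → a ≤ J μ f g₁ g₂ := by
    intro g₁ g₂ h1 h2
    unfold J
    rw [le_div_iff₀ (mul_pos (gm_pos_tr μ g₁) (gm_pos_tr μ g₂))]
    have hint : Integrable (fun ω => g₁ ω * g₂ ω) μ := by
      have := prod_int μ (f := fun _ => 1) measurable_const (b := 1) (fun _ => zero_le_one)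
        (fun _ => le_rfl) h1 h2
      simpa using this
    calc a * (gm μ g₁ * gm μ g₂) ≤ a * ∫ ω, g₁ ω * g₂ ω ∂μ :=
          mul_le_mul_of_nonneg_left (jensen μ h1 h2) ha.le
      _ = ∫ ω, a * (g₁ ω * g₂ ω) ∂μ := (integral_const_mul _ _).symm
      _ ≤ ∫ ω, g₁ ω * f ω * g₂ ω ∂μ := by
          refine integral_mono (hint.const_mul a) (prod_int μ hf hf0 hfb h1 h2) fun ω => ?_
          have e1 := mul_pos (h1.pos ω) (h2.pos ω)
          show a * (g₁ ω * g₂ ω) ≤ g₁ ω * f ω * g₂ ω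
          nlinarith [hfa ω]
  have hbdd : BddBelow {r | ∃ g₁ g₂ : Ω → ℝ, Bd T₁ g₁ ∧ Bd T₂ g₂ ∧ r = J μ f g₁ g₂} := by
    refine ⟨a, ?_⟩
    rintro _ ⟨g₁, g₂, h1, h2, rfl⟩
    exact hJ g₁ g₂ h1 h2
  have hone : ∀ T : Ω → Ω, Bd T (fun _ => 1) := fun T =>
    ⟨measurable_const, 1, one_pos, fun ω => by simp⟩
  have hne : {r | ∃ g₁ g₂ : Ω → ℝ, Bd T₁ g₁ ∧ Bd T₂ g₂ ∧ r = J μ f g₁ g₂}.Nonempty :=
    ⟨_, _, _, hone T₁, hone T₂, rfl⟩
  have ha0 : a ≤ s0 μ T₁ T₂ f := by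
    refine le_csInf hne ?_
    rintro _ ⟨g₁, g₂, h1, h2, rfl⟩
    exact hJ g₁ g₂ h1 h2
  have hle : ∀ g₁ g₂ : Ω → ℝ, Bd T₁ g₁ → Bd T₂ g₂ → s0 μ T₁ T₂ f ≤ J μ f g₁ g₂ :=
    fun g₁ g₂ h1 h2 => csInf_le hbdd ⟨g₁, g₂, h1, h2, rfl⟩
  refine ⟨ha0, hle, le_antisymm ?_ ?_⟩
  · -- upper bound
    have key : ∀ g₁ g₂ : Ω → ℝ, Bd T₁ g₁ → Bd T₂ g₂ →
        smean μ T₁ T₂ f ≤ ENNReal.ofReal (J μ f g₁ g₂) := by
      intro g₁ g₂ h1 h2
      refine (iInf₂_le g₁ g₂).trans ((iInf₂_le (h1.inG μ) (h2.inG μ)).trans ?_)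
      have hnn : ∀ ω, 0 ≤ g₁ ω * f ω * g₂ ω := fun ω =>
        mul_nonneg (mul_nonneg (h1.pos ω).le (hf0 ω)) (h2.pos ω).le
      rw [← ofReal_integral_eq_lintegral_ofReal (prod_int μ hf hf0 hfb h1 h2)
        (ae_of_all _ hnn), ← ENNReal.ofReal_div_of_pos (mul_pos (gm_pos_tr μ g₁) (gm_pos_tr μ g₂))]
      exact le_rfl
    have hfin : smean μ T₁ T₂ f ≠ ⊤ :=
      ((key _ _ (hone T₁) (hone T₂)).trans_lt ENNReal.ofReal_lt_top).ne
    rw [← ENNReal.ofReal_toReal hfin]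
    refine ENNReal.ofReal_le_ofReal ?_
    refine le_csInf hne ?_
    rintro _ ⟨g₁, g₂, h1, h2, rfl⟩
    have h3 := ENNReal.toReal_mono ENNReal.ofReal_ne_top (key g₁ g₂ h1 h2)
    rwa [ENNReal.toReal_ofReal (ha.le.trans (hJ g₁ g₂ h1 h2))] at h3
  · -- lower bound
    refine le_iInf fun g₁ => le_iInf fun g₂ => le_iInf fun h1 => le_iInf fun h2 => ?_
    have hG : 0 < gm μ g₁ * gm μ g₂ := mul_pos (gm_pos_tr μ g₁) (gm_pos_tr μ g₂)
    rw [ENNReal.le_div_iff_mul_le (Or.inl (by simpa using hG)) (Or.inl ENNReal.ofReal_ne_top),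
      ← ENNReal.ofReal_mul (ha.le.trans ha0)]
    by_cases hI : (∫⁻ ω, ENNReal.ofReal (g₁ ω * f ω * g₂ ω) ∂μ) = ⊤
    · rw [hI]; exact le_top
    have hm1 : Measurable g₁ := inv_meas h1.meas
    have hm2 : Measurable g₂ := inv_meas h2.meas
    have hmm : Measurable (fun ω => g₁ ω * f ω * g₂ ω) := (hm1.mul hf).mul hm2
    have hnn : ∀ ω, 0 ≤ g₁ ω * f ω * g₂ ω := fun ω =>
      mul_nonneg (mul_nonneg (h1.pos ω).le (hf0 ω)) (h2.pos ω).le
    have hint : Integrable (fun ω => g₁ ω * f ω * g₂ ω) μ :=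
      (lintegral_ofReal_ne_top_iff_integrable hmm.aestronglyMeasurable (ae_of_all _ hnn)).1 hI
    rw [← ofReal_integral_eq_lintegral_ofReal hint (ae_of_all _ hnn)]
    refine ENNReal.ofReal_le_ofReal ?_
    have hint2 : Integrable (fun ω => g₁ ω * g₂ ω) μ := by
      refine (hint.const_mul a⁻¹).mono' (hm1.mul hm2).aestronglyMeasurable (ae_of_all _ fun ω => ?_)
      have e1 := mul_pos (h1.pos ω) (h2.pos ω)
      rw [Real.norm_eq_abs, abs_of_pos e1]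
      have e2 : g₁ ω * g₂ ω = a⁻¹ * (a * (g₁ ω * g₂ ω)) := by
        rw [← mul_assoc, inv_mul_cancel₀ ha.ne', one_mul]
      rw [e2]
      refine mul_le_mul_of_nonneg_left ?_ (inv_pos.2 ha).le
      nlinarith [hfa ω]
    have hb0 : 0 ≤ b := by
      obtain ⟨ω⟩ : Nonempty Ω := μ.nonempty_of_neZero
      exact (hf0 ω).trans (hfb ω)
    have hlimI : Tendsto (fun k : ℕ => ∫ ω, tr k g₁ ω * f ω * tr k g₂ ω ∂μ) atTop
        (𝓝 (∫ ω, g₁ ω * f ω * g₂ ω ∂μ)) := by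
      refine tendsto_integral_of_dominated_convergence (fun ω => b * (g₁ ω * g₂ ω + 3)) ?_
        ((hint2.add (integrable_const 3)).const_mul b) ?_ ?_
      · intro k
        exact (((tr_bd k h1.meas).meas.mul hf).mul (tr_bd k h2.meas).meas).aestronglyMeasurable
      · intro k
        refine ae_of_all _ fun ω => ?_
        have p1 := (tr_bd k h1.meas).pos ω
        have p2 := (tr_bd k h2.meas).pos ω
        rw [Real.norm_eq_abs, abs_of_nonneg (mul_nonneg (mul_nonneg p1.le (hf0 ω)) p2.le)]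
        have e1 := tr_mul_le k ω (h1.pos ω) (h2.pos ω)
        have e2 : 0 ≤ tr k g₁ ω * tr k g₂ ω := (mul_pos p1 p2).le
        calc tr k g₁ ω * f ω * tr k g₂ ω = f ω * (tr k g₁ ω * tr k g₂ ω) := by ring
          _ ≤ b * (g₁ ω * g₂ ω + 3) := mul_le_mul (hfb ω) e1 e2 hb0
      · exact ae_of_all _ fun ω =>
          ((tr_tendsto ω (h1.pos ω)).mul tendsto_const_nhds).mul (tr_tendsto ω (h2.pos ω))
    have hlimL : Tendsto (fun k : ℕ => s0 μ T₁ T₂ f * (gm μ (tr k g₁) * gm μ (tr k g₂))) atTop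
        (𝓝 (s0 μ T₁ T₂ f * (gm μ g₁ * gm μ g₂))) :=
      ((gm_tendsto μ h1).mul (gm_tendsto μ h2)).const_mul _
    refine le_of_tendsto_of_tendsto' hlimL hlimI fun k => ?_
    have h3 := hle _ _ (tr_bd k h1.meas) (tr_bd k h2.meas)
    unfold J at h3
    rwa [le_div_iff₀ (mul_pos (gm_pos_tr μ _) (gm_pos_tr μ _))] at h3

end Pool.Agent.H415.LLP

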