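import Mathlib
import Pool.Agent.H415.LLP.Step
import Pool.Agent.H415.LLP.Trunc
import Pool.Agent.H415.LLP.Erg

/-!
# Near minimisers of the scaling functional are nearly doubly stochastic
-/

set_option autoImplicit false

open Set Filter Topology MeasureTheory

namespace Pool.Agent.H415.LLP

variable {Ω : Type*} [MeasurableSpace Ω] {μ : Measure Ω} [IsProbabilityMeasure μ]

lemma Bd.measurable {T : Ω → Ω} {g : Ω → ℝ} (h : Bd T g) : Measurable g :=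
  h.1.mono (MeasurableSpace.invariants_le T) le_rfl

lemma Bd.inv {T : Ω → Ω} {g : Ω → ℝ} (h : Bd T g) (ω : Ω) : g (T ω) = g ω :=
  congrFun (MeasurableSpace.comp_eq_of_measurable_invariants h.1) ω

lemma Bd.absle {T : Ω → Ω} {g : Ω → ℝ} (h : Bd T g) : ∃ M, ∀ ω, |g ω| ≤ M := by
  obtain ⟨M, hM, h1⟩ := h.2
  exact ⟨M, fun ω => by rw [abs_of_pos (h.pos ω)]; exact (h1 ω).2⟩

lemma log_bd {x lo hi : ℝ} (hlo : 0 < lo) (h1 : lo ≤ x) (h2 : x ≤ hi) :
    |Real.log x| ≤ |Real.log lo| + |Real.log hi| := by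
  have hx : 0 < x := hlo.trans_le h1
  have e1 := Real.log_le_log hlo h1
  have e2 := Real.log_le_log hx h2
  rw [abs_le]
  have e3 := neg_abs_le (Real.log lo)
  have e4 := le_abs_self (Real.log hi)
  have e5 := abs_nonneg (Real.log lo)
  have e6 := abs_nonneg (Real.log hi)
  constructor <;> linarith

lemma Bd.logbd {T : Ω → Ω} {g : Ω → ℝ} (h : Bd T g) : ∃ M, ∀ ω, |Real.log (g ω)| ≤ M := by
  obtain ⟨M, hM, h1⟩ := h.2
  exact ⟨_, fun ω => log_bd (inv_pos.2 hM) (h1 ω).1 (h1 ω).2⟩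

lemma integrable_bdd {g : Ω → ℝ} (hg : Measurable g) {C : ℝ} (h : ∀ ω, |g ω| ≤ C) :
    Integrable g μ :=
  Integrable.mono' (integrable_const C) hg.aestronglyMeasurable (Eventually.of_forall h)

lemma Bd.logint {T : Ω → Ω} {g : Ω → ℝ} (h : Bd T g) :
    Integrable (fun ω => Real.log (g ω)) μ := by
  obtain ⟨M, hM⟩ := h.logbd
  exact integrable_bdd h.measurable.log hM

lemma Bd.of_bounds {T : Ω → Ω} {g : Ω → ℝ} (hg : Measurable[MeasurableSpace.invariants T] g)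
    {lo hi : ℝ} (hlo : 0 < lo) (h : ∀ ω, lo ≤ g ω ∧ g ω ≤ hi) : Bd T g := by
  refine ⟨hg, max lo⁻¹ (max hi 1), ?_, fun ω => ⟨?_, ?_⟩⟩
  · exact lt_of_lt_of_le (inv_pos.2 hlo) (le_max_left _ _)
  · refine le_trans ?_ (h ω).1
    rw [inv_le_comm₀ (lt_of_lt_of_le (inv_pos.2 hlo) (le_max_left _ _)) hlo]
    exact le_max_left _ _
  · exact (h ω).2.trans ((le_max_left _ _).trans (le_max_right _ _))

omit [IsProbabilityMeasure μ] in
lemma gm_inv {g : Ω → ℝ} : gm μ (fun ω => (g ω)⁻¹) = (gm μ g)⁻¹ := by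
  unfold gm
  simp only [Real.log_inv, integral_neg, Real.exp_neg]

omit [IsProbabilityMeasure μ] in
lemma gm_pos (g : Ω → ℝ) : 0 < gm μ g := Real.exp_pos _

omit [IsProbabilityMeasure μ] in
lemma gm_mul {g h : Ω → ℝ} (hg : ∀ ω, 0 < g ω) (hh : ∀ ω, 0 < h ω)
    (hgi : Integrable (fun ω => Real.log (g ω)) μ) (hhi : Integrable (fun ω => Real.log (h ω)) μ) :
    gm μ (fun ω => g ω * h ω) = gm μ g * gm μ h := by
  unfold gm
  rw [← Real.exp_add, ← integral_add hgi hhi]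
  congr 1
  refine integral_congr_ae (Eventually.of_forall fun ω => ?_)
  exact Real.log_mul (hg ω).ne' (hh ω).ne'

/-- the optimal function against a given function of the other class -/
lemma sinkStep {S T : Ω → Ω} (hT : MeasurePreserving T μ μ) (comm : ∀ ω, S (T ω) = T (S ω))
    (herg : ErgPair μ S T) {f : Ω → ℝ} (hf : Measurable f) {a b : ℝ} (ha : 0 < a)
    (hfa : ∀ ω, a ≤ f ω) (hfb : ∀ ω, f ω ≤ b) {p : Ω → ℝ} (hp : Bd S p) :
    ∃ g : Ω → ℝ, Bd T g ∧ 0 < ∫ ω, p ω ∂μ ∧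
      (∀ ω, (b * ∫ ω, p ω ∂μ)⁻¹ ≤ g ω ∧ g ω ≤ (a * ∫ ω, p ω ∂μ)⁻¹) ∧
      (∀ᵐ ω ∂μ, (μ[fun ω => g ω * (f ω * p ω) | MeasurableSpace.invariants T]) ω = 1) ∧
      (∫ ω, g ω * (f ω * p ω) ∂μ = 1) ∧
      ∀ q : Ω → ℝ, Bd T q → gm μ q ≤ gm μ g * ∫ ω, q ω * (f ω * p ω) ∂μ := by
  have hle := MeasurableSpace.invariants_le T
  obtain ⟨ω₀⟩ : Nonempty Ω := by
    by_contra hne
    rw [not_nonempty_iff] at hne
    exact (IsProbabilityMeasure.ne_zero μ) (Measure.eq_zero_of_isEmpty μ)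
  have hab : a ≤ b := (hfa ω₀).trans (hfb ω₀)
  have hb : 0 < b := ha.trans_le hab
  obtain ⟨M, hM⟩ := hp.absle
  obtain ⟨M', hM', hpM⟩ := hp.2
  have hpi : Integrable p μ := integrable_bdd hp.measurable hM
  set κ := ∫ ω, p ω ∂μ with hκ
  have hκ0 : 0 < κ := by
    have h1 : ∫ _ω : Ω, M'⁻¹ ∂μ ≤ κ := integral_mono (integrable_const _) hpi fun ω => (hpM ω).1
    rw [integral_const, probReal_univ, one_smul] at h1
    exact (inv_pos.2 hM').trans_le h1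
  have hcE := condExp_inv hT comm herg hp.measurable hp.inv hM
  have hFm : Measurable fun ω => f ω * p ω := hf.mul hp.measurable
  have hFb : ∀ ω, |f ω * p ω| ≤ b * M := by
    intro ω
    rw [abs_mul]
    refine mul_le_mul ?_ (hM ω) (abs_nonneg _) hb.le
    rw [abs_of_pos (ha.trans_le (hfa ω))]
    exact hfb ω
  have hFi : Integrable (fun ω => f ω * p ω) μ := integrable_bdd hFm hFb
  have hbd : ∀ᵐ ω ∂μ, a * κ ≤ (μ[fun ω => f ω * p ω | MeasurableSpace.invariants T]) ω ∧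
      (μ[fun ω => f ω * p ω | MeasurableSpace.invariants T]) ω ≤ b * κ := by
    have h1 : μ[fun ω => a * p ω | MeasurableSpace.invariants T] ≤ᵐ[μ]
        μ[fun ω => f ω * p ω | MeasurableSpace.invariants T] :=
      condExp_mono (hpi.const_mul a) hFi (Eventually.of_forall fun ω =>
        mul_le_mul_of_nonneg_right (hfa ω) (hp.pos ω).le)
    have h2 : μ[fun ω => f ω * p ω | MeasurableSpace.invariants T] ≤ᵐ[μ]
        μ[fun ω => b * p ω | MeasurableSpace.invariants T] :=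
      condExp_mono hFi (hpi.const_mul b) (Eventually.of_forall fun ω =>
        mul_le_mul_of_nonneg_right (hfb ω) (hp.pos ω).le)
    have h3 : ∀ c : ℝ, μ[fun ω => c * p ω | MeasurableSpace.invariants T] =ᵐ[μ]
        fun ω => c * (μ[p | MeasurableSpace.invariants T]) ω := by
      intro c
      have := condExp_smul c p (MeasurableSpace.invariants T) (μ := μ)
      exact this
    filter_upwards [h1, h2, h3 a, h3 b, hcE] with ω k1 k2 k3 k4 k5
    rw [k3, k5] at k1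
    rw [k4, k5] at k2
    exact ⟨k1, k2⟩
  obtain ⟨e, he1, he2, he3, he4, he5, he6⟩ := step hle hFm hFb (mul_pos ha hκ0) hbd
  have hmax : max (a * κ) (b * κ) = b * κ := max_eq_right (by nlinarith)
  rw [hmax] at he2
  have hepos : ∀ ω, 0 < e ω := fun ω => (mul_pos ha hκ0).trans_le (he2 ω).1
  have hbds : ∀ ω, (b * κ)⁻¹ ≤ (e ω)⁻¹ ∧ (e ω)⁻¹ ≤ (a * κ)⁻¹ := fun ω =>
    ⟨inv_anti₀ (hepos ω) (he2 ω).2, inv_anti₀ (mul_pos ha hκ0) (he2 ω).1⟩
  refine ⟨fun ω => (e ω)⁻¹, ?_, hκ0, hbds, he4, he5, ?_⟩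
  · exact Bd.of_bounds he1.inv (inv_pos.2 (mul_pos hb hκ0)) hbds
  · intro q hq
    have h1 := he6 q hq.1 hq.pos hq.logbd
    rw [gm_inv]
    have h2 := gm_pos (μ := μ) e
    rw [← div_eq_inv_mul, le_div_iff₀ h2]
    exact h1


lemma abs_sub_one_le {c θ : ℝ} (hc : 0 < c) (hθ : 0 < θ) :
    |c - 1| ≤ (c - 1 - Real.log c) / (2 * θ) + θ * (c + 1) := by
  set t := Real.sqrt c with ht
  have ht0 : 0 < t := Real.sqrt_pos.2 hc
  have htc : t * t = c := Real.mul_self_sqrt hc.le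
  have h1 : Real.log c = 2 * Real.log t := by
    rw [← htc, Real.log_mul ht0.ne' ht0.ne']; ring
  have h2 : Real.log t ≤ t - 1 := Real.log_le_sub_one_of_pos ht0
  have h3 : (t - 1) ^ 2 ≤ c - 1 - Real.log c := by nlinarith
  have h4 : |c - 1| = |t - 1| * (t + 1) := by
    have h0 : c - 1 = (t - 1) * (t + 1) := by linear_combination -htc
    rw [h0, abs_mul, abs_of_pos (by linarith : 0 < t + 1)]
  have h5 : |t - 1| * (t + 1) ≤ (t - 1) ^ 2 / (2 * θ) + θ / 2 * (t + 1) ^ 2 := by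
    rw [div_add' _ _ _ (by positivity), le_div_iff₀ (by positivity)]
    have := sq_nonneg (|t - 1| - θ * (t + 1))
    nlinarith [sq_abs (t - 1)]
  have h6 : θ / 2 * (t + 1) ^ 2 ≤ θ * (c + 1) := by
    have := sq_nonneg (t - 1)
    have h7 : (t + 1) ^ 2 ≤ 2 * (c + 1) := by nlinarith
    nlinarith
  have h7 : (t - 1) ^ 2 / (2 * θ) ≤ (c - 1 - Real.log c) / (2 * θ) :=
    div_le_div_of_nonneg_right h3 (by positivity)
  rw [h4]
  linarith

/-- near minimisers: normalised in one direction and nearly normalised in the other one -/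
theorem near {T₁ T₂ : Ω → Ω} (hT₁ : MeasurePreserving T₁ μ μ) (hT₂ : MeasurePreserving T₂ μ μ)
    (comm : ∀ ω, T₁ (T₂ ω) = T₂ (T₁ ω)) (herg : ErgPair μ T₁ T₂) {f : Ω → ℝ}
    (hf : Measurable f) {a b : ℝ} (ha : 0 < a) (hfa : ∀ ω, a ≤ f ω) (hfb : ∀ ω, f ω ≤ b)
    {s : ℝ} (hs : 0 < s) (hsJ : ∀ g₁ g₂ : Ω → ℝ, Bd T₁ g₁ → Bd T₂ g₂ → s ≤ J μ f g₁ g₂)
    (hsinf : ∀ δ > 0, ∃ g₁ g₂ : Ω → ℝ, Bd T₁ g₁ ∧ Bd T₂ g₂ ∧ J μ f g₁ g₂ < s + δ)
    {ε : ℝ} (hε : 0 < ε) :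
    ∃ (g₁ g₂ : Ω → ℝ) (lo : ℝ), Bd T₁ g₁ ∧ Bd T₂ g₂ ∧ 0 < lo ∧
      (∀ ω, lo ≤ g₁ ω * f ω * g₂ ω ∧ g₁ ω * f ω * g₂ ω ≤ (b / a) ^ 3 * lo) ∧
      s * (gm μ g₁ * gm μ g₂) ≤ 1 ∧ 1 ≤ s * (1 + ε) * (gm μ g₁ * gm μ g₂) ∧
      (∀ᵐ ω ∂μ, (μ[fun ω => g₁ ω * f ω * g₂ ω | MeasurableSpace.invariants T₁]) ω = 1) ∧
      ∃ c : Ω → ℝ, Measurable[MeasurableSpace.invariants T₂] c ∧
        (∀ ω, lo ≤ c ω ∧ c ω ≤ (b / a) ^ 3 * lo) ∧
        (∀ᵐ ω ∂μ, c ω = (μ[fun ω => g₁ ω * f ω * g₂ ω | MeasurableSpace.invariants T₂]) ω) ∧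
        ∫ ω, |c ω - 1| ∂μ ≤ 2 * Real.sqrt ε := by
  obtain ⟨ω₀⟩ : Nonempty Ω := by
    by_contra hne
    rw [not_nonempty_iff] at hne
    exact (IsProbabilityMeasure.ne_zero μ) (Measure.eq_zero_of_isEmpty μ)
  have hab : a ≤ b := (hfa ω₀).trans (hfb ω₀)
  have hb : 0 < b := ha.trans_le hab
  have hle₂ := MeasurableSpace.invariants_le T₂
  obtain ⟨p₁, p₂, hp₁, hp₂, hJ⟩ := hsinf (ε * s) (by positivity)
  obtain ⟨g₁, hg₁, hκ₂, hg₁b, hg₁E, hg₁I, hg₁o⟩ :=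
    sinkStep hT₁ (fun ω => (comm ω).symm) herg.symm hf ha hfa hfb hp₂
  obtain ⟨g₂, hg₂, hκ₁, hg₂b, hg₂E, hg₂I, hg₂o⟩ :=
    sinkStep hT₂ comm herg hf ha hfa hfb hg₁
  obtain ⟨g, hg, hκ, hgb, hgE, hgI, hgo⟩ :=
    sinkStep hT₁ (fun ω => (comm ω).symm) herg.symm hf ha hfa hfb hg₂
  have e1 : ∫ ω, p₁ ω * (f ω * p₂ ω) ∂μ < s * (1 + ε) * (gm μ p₁ * gm μ p₂) := by
    unfold J at hJ
    rw [div_lt_iff₀ (mul_pos (gm_pos _) (gm_pos _))] at hJ
    have : ∫ ω, p₁ ω * (f ω * p₂ ω) ∂μ = ∫ ω, p₁ ω * f ω * p₂ ω ∂μ := by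
      congr 1; funext ω; ring
    rw [this]
    linarith [hJ]
  have e2 : 1 ≤ s * (1 + ε) * (gm μ g₁ * gm μ p₂) := by
    have h1 := hg₁o p₁ hp₁
    have h2 := gm_pos (μ := μ) p₁
    have h3 : gm μ p₁ * 1 ≤ gm μ p₁ * (s * (1 + ε) * (gm μ g₁ * gm μ p₂)) := by
      calc gm μ p₁ * 1 ≤ gm μ g₁ * ∫ ω, p₁ ω * (f ω * p₂ ω) ∂μ := by rw [mul_one]; exact h1
        _ ≤ gm μ g₁ * (s * (1 + ε) * (gm μ p₁ * gm μ p₂)) :=
          mul_le_mul_of_nonneg_left e1.le (gm_pos _).le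
        _ = _ := by ring
    exact le_of_mul_le_mul_left h3 h2
  have e3 : gm μ p₂ ≤ gm μ g₂ := by
    have h1 := hg₂o p₂ hp₂
    have h2 : ∫ ω, p₂ ω * (f ω * g₁ ω) ∂μ = 1 := by
      rw [← hg₁I]
      congr 1; funext ω; ring
    rwa [h2, mul_one] at h1
  have e4 : gm μ g₁ ≤ gm μ g := by
    have h1 := hgo g₁ hg₁
    have h2 : ∫ ω, g₁ ω * (f ω * g₂ ω) ∂μ = 1 := by
      rw [← hg₂I]
      congr 1; funext ω; ring
    rwa [h2, mul_one] at h1
  have e5 : 1 ≤ s * (1 + ε) * (gm μ g * gm μ g₂) := by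
    refine e2.trans (mul_le_mul_of_nonneg_left ?_ (by positivity))
    exact mul_le_mul e4 e3 (gm_pos _).le (gm_pos _).le
  have hfun : (fun ω => g ω * f ω * g₂ ω) = fun ω => g ω * (f ω * g₂ ω) := by
    funext ω; ring
  have hI1 : ∫ ω, g ω * f ω * g₂ ω ∂μ = 1 := by
    rw [hfun]; exact hgI
  have e6 : s * (gm μ g * gm μ g₂) ≤ 1 := by
    have h1 := hsJ g g₂ hg hg₂
    unfold J at h1
    rw [hI1, le_div_iff₀ (mul_pos (gm_pos _) (gm_pos _))] at h1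
    exact h1
  set κ₁ := ∫ ω, g₁ ω ∂μ with hκ₁d
  set κ₂ := ∫ ω, g₂ ω ∂μ with hκ₂d
  set lo : ℝ := (b * κ₂)⁻¹ * a * (b * κ₁)⁻¹ with hlo
  have hlo0 : 0 < lo := by positivity
  have hhi : (b / a) ^ 3 * lo = (a * κ₂)⁻¹ * b * (a * κ₁)⁻¹ := by
    rw [hlo]
    field_simp
  have hbds : ∀ ω, lo ≤ g ω * f ω * g₂ ω ∧ g ω * f ω * g₂ ω ≤ (b / a) ^ 3 * lo := by
    intro ω
    rw [hhi]
    have k1 := hgb ω
    have k2 := hg₂b ω
    have k3 := hg.pos ω
    have k4 := hg₂.pos ω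
    have k5 : 0 < f ω := ha.trans_le (hfa ω)
    constructor
    · exact mul_le_mul (mul_le_mul k1.1 (hfa ω) ha.le k3.le) k2.1 (by positivity) (by positivity)
    · exact mul_le_mul (mul_le_mul k1.2 (hfb ω) k5.le (by positivity)) k2.2 k4.le (by positivity)
  have hhm : Measurable fun ω => g ω * f ω * g₂ ω := (hg.measurable.mul hf).mul hg₂.measurable
  have hhb : ∀ ω, |g ω * f ω * g₂ ω| ≤ (b / a) ^ 3 * lo := by
    intro ω
    rw [abs_of_pos (hlo0.trans_le (hbds ω).1)]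
    exact (hbds ω).2
  have hhi' : Integrable (fun ω => g ω * f ω * g₂ ω) μ := integrable_bdd hhm hhb
  have hlohi : lo ≤ (b / a) ^ 3 * lo := (hbds ω₀).1.trans (hbds ω₀).2
  have hcb : ∀ᵐ ω ∂μ, lo ≤ (μ[fun ω => g ω * f ω * g₂ ω | MeasurableSpace.invariants T₂]) ω ∧
      (μ[fun ω => g ω * f ω * g₂ ω | MeasurableSpace.invariants T₂]) ω ≤ (b / a) ^ 3 * lo := by
    have k1 : μ[fun _ => lo | MeasurableSpace.invariants T₂] ≤ᵐ[μ]
        μ[fun ω => g ω * f ω * g₂ ω | MeasurableSpace.invariants T₂] :=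
      condExp_mono (integrable_const _) hhi' (Eventually.of_forall fun ω => (hbds ω).1)
    have k2 : μ[fun ω => g ω * f ω * g₂ ω | MeasurableSpace.invariants T₂] ≤ᵐ[μ]
        μ[fun _ => (b / a) ^ 3 * lo | MeasurableSpace.invariants T₂] :=
      condExp_mono hhi' (integrable_const _) (Eventually.of_forall fun ω => (hbds ω).2)
    rw [condExp_const hle₂] at k1 k2
    filter_upwards [k1, k2] with ω h1 h2
    exact ⟨h1, h2⟩
  obtain ⟨c, hc1, hc2, hc3, hc4, hc5, hc6⟩ := step hle₂ hhm hhb hlo0 hcb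
  rw [max_eq_right hlohi] at hc2
  have hcBd : Bd T₂ c := Bd.of_bounds hc1 hlo0 hc2
  have hcpos := hcBd.pos
  have hc5' : ∫ ω, g ω * f ω * (g₂ ω * (c ω)⁻¹) ∂μ = 1 := by
    rw [← hc5]
    congr 1; funext ω; ring
  have hinvBd : Bd T₂ fun ω => (c ω)⁻¹ :=
    Bd.of_bounds hc1.inv (inv_pos.2 (hlo0.trans_le hlohi)) fun ω =>
      ⟨inv_anti₀ (hcpos ω) (hc2 ω).2, inv_anti₀ hlo0 (hc2 ω).1⟩
  have hprodBd : Bd T₂ fun ω => g₂ ω * (c ω)⁻¹ := by
    refine Bd.of_bounds (hg₂.1.mul hc1.inv)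
      (mul_pos (inv_pos.2 (mul_pos hb hκ₁)) (inv_pos.2 (hlo0.trans_le hlohi)))
      (hi := (a * κ₁)⁻¹ * lo⁻¹) fun ω => ⟨?_, ?_⟩
    · exact mul_le_mul (hg₂b ω).1 (inv_anti₀ (hcpos ω) (hc2 ω).2)
        (inv_pos.2 (hlo0.trans_le hlohi)).le (hg₂.pos ω).le
    · exact mul_le_mul (hg₂b ω).2 (inv_anti₀ hlo0 (hc2 ω).1) (inv_pos.2 (hcpos ω)).le
        (by positivity)
  have e7 : s * (gm μ g * gm μ g₂) ≤ gm μ c := by
    have h1 := hsJ g _ hg hprodBd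
    unfold J at h1
    rw [hc5', gm_mul hg₂.pos hinvBd.pos hg₂.logint hinvBd.logint, gm_inv,
      le_div_iff₀ (by have := gm_pos (μ := μ) g; have := gm_pos (μ := μ) g₂
                      have := gm_pos (μ := μ) c; positivity)] at h1
    have h2 := gm_pos (μ := μ) c
    have h3 : s * (gm μ g * (gm μ g₂ * (gm μ c)⁻¹)) = s * (gm μ g * gm μ g₂) / gm μ c := by
      field_simp
    rw [h3, div_le_one h2] at h1
    exact h1
  have e8 : 1 / (1 + ε) ≤ gm μ c := by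
    refine le_trans ?_ e7
    rw [div_le_iff₀ (by positivity)]
    linarith
  have e9 : -ε ≤ ∫ ω, Real.log (c ω) ∂μ := by
    have h1 : Real.log (1 / (1 + ε)) ≤ ∫ ω, Real.log (c ω) ∂μ := by
      rw [Real.log_le_iff_le_exp (by positivity)]
      exact e8
    rw [one_div, Real.log_inv] at h1
    have h2 : Real.log (1 + ε) ≤ ε := by
      have := Real.log_le_sub_one_of_pos (by positivity : 0 < 1 + ε)
      linarith
    linarith
  have hcint : Integrable c μ := by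
    obtain ⟨M, hM⟩ := hcBd.absle
    exact integrable_bdd hcBd.measurable hM
  have e10 : ∫ ω, c ω ∂μ = 1 := by
    rw [integral_congr_ae hc3, integral_condExp hle₂, hI1]
  refine ⟨g, g₂, lo, hg, hg₂, hlo0, hbds, e6, e5, ?_, c, hc1, hc2, hc3, ?_⟩
  · rw [hfun]; exact hgE
  · set θ : ℝ := Real.sqrt ε / 2 with hθ
    have hsq : 0 < Real.sqrt ε := Real.sqrt_pos.2 hε
    have hθ0 : 0 < θ := by positivity
    have h1 : ∫ ω, |c ω - 1| ∂μ ≤
        ∫ ω, ((c ω - 1 - Real.log (c ω)) / (2 * θ) + θ * (c ω + 1)) ∂μ := by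
      refine integral_mono ?_ ?_ fun ω => abs_sub_one_le (hcpos ω) hθ0
      · exact (hcint.sub (integrable_const 1)).abs
      · exact (((hcint.sub (integrable_const 1)).sub hcBd.logint).div_const _).add
          ((hcint.add (integrable_const 1)).const_mul θ)
    have h2 : ∫ ω, ((c ω - 1 - Real.log (c ω)) / (2 * θ) + θ * (c ω + 1)) ∂μ =
        (- ∫ ω, Real.log (c ω) ∂μ) / (2 * θ) + θ * 2 := by
      have hi1 : Integrable (fun ω => c ω - 1) μ := hcint.sub (integrable_const 1)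
      have hi2 : Integrable (fun ω => c ω - 1 - Real.log (c ω)) μ := hi1.sub hcBd.logint
      have hi3 : Integrable (fun ω => c ω + 1) μ := hcint.add (integrable_const 1)
      rw [integral_add (hi2.div_const _) (hi3.const_mul θ), integral_div, integral_const_mul,
        integral_sub hi1 hcBd.logint, integral_sub hcint (integrable_const 1),
        integral_add hcint (integrable_const 1), e10]
      simp only [integral_const, probReal_univ, smul_eq_mul, one_mul]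
      ring
    rw [h2] at h1
    have h3 : (- ∫ ω, Real.log (c ω) ∂μ) / (2 * θ) ≤ ε / (2 * θ) :=
      div_le_div_of_nonneg_right (by linarith) (by positivity)
    have h4 : ε / (2 * θ) = Real.sqrt ε := by
      have : 2 * θ = Real.sqrt ε := by rw [hθ]; ring
      rw [this, div_eq_iff hsq.ne']
      exact (Real.mul_self_sqrt hε.le).symm
    rw [h4] at h3
    have h5 : θ * 2 = Real.sqrt ε := by rw [hθ]; ring
    rw [h5] at h1
    linarith

end Pool.Agent.H415.LLP
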