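import Mathlib
import Pool.Agent.H415.LLP.Near
import Pool.Agent.H415.LLP.MatU
import Pool.Agent.H415.LLP.MatL

/-!
# The law of large permanents for bounded functions
-/

set_option autoImplicit false

open Set Filter Topology MeasureTheory

namespace Pool.Agent.H415.LLP

variable {Ω : Type*} [MeasurableSpace Ω] {μ : Measure Ω} [IsProbabilityMeasure μ]

/-- the permanent of a matrix sampled along the action, divided by `n!` -/
noncomputable def PP (T₁ T₂ : Ω → Ω) (f : Ω → ℝ) (n : ℕ) (ω : Ω) : ℝ :=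
  (∑ σ : Equiv.Perm (Fin n), ∏ i : Fin n, f (T₁^[(i : ℕ)] (T₂^[(σ i : ℕ)] ω))) /
    (n.factorial : ℝ)

lemma sum_fin (F : ℕ → ℝ) (n : ℕ) : ∑ i : Fin n, F i = ∑ i ∈ Finset.range n, F i :=
  Fin.sum_univ_eq_sum_range F n

omit [MeasurableSpace Ω] in
lemma iter_inv {T : Ω → Ω} {g : Ω → ℝ} (hg : ∀ ω, g (T ω) = g ω) (n : ℕ) (ω : Ω) :
    g (T^[n] ω) = g ω := by
  induction n generalizing ω with
  | zero => rfl
  | succ n ih => rw [Function.iterate_succ_apply, ih, hg]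

omit [MeasurableSpace Ω] in
lemma iter_comm {T₁ T₂ : Ω → Ω} (comm : ∀ ω, T₁ (T₂ ω) = T₂ (T₁ ω)) (i j : ℕ) (ω : Ω) :
    T₁^[i] (T₂^[j] ω) = T₂^[j] (T₁^[i] ω) := by
  have h : Function.Commute T₁ T₂ := fun ω => comm ω
  exact (h.iterate_iterate i j) ω

omit [MeasurableSpace Ω] in
/-- deterministic part: the permanent after scaling -/
lemma PP_scale {T₁ T₂ : Ω → Ω} (comm : ∀ ω, T₁ (T₂ ω) = T₂ (T₁ ω)) {f g₁ g₂ : Ω → ℝ}
    (hg₁ : ∀ ω, g₁ (T₁ ω) = g₁ ω) (hg₂ : ∀ ω, g₂ (T₂ ω) = g₂ ω)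
    (p₁ : ∀ ω, 0 < g₁ ω) (p₂ : ∀ ω, 0 < g₂ ω) {n : ℕ} (hn : 0 < n) (ω : Ω) :
    PP T₁ T₂ (fun ω => g₁ ω * f ω * g₂ ω) n ω =
      Real.exp ((n : ℝ)⁻¹ * ∑ k ∈ Finset.range n, Real.log (g₁ (T₂^[k] ω)) +
        (n : ℝ)⁻¹ * ∑ k ∈ Finset.range n, Real.log (g₂ (T₁^[k] ω))) ^ n * PP T₁ T₂ f n ω := by
  have hn' : (n : ℝ) ≠ 0 := by exact_mod_cast hn.ne'
  unfold PP
  rw [mul_div_assoc']
  congr 1
  rw [Finset.mul_sum]
  refine Finset.sum_congr rfl fun σ _ => ?_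
  have e1 : ∀ i : Fin n, g₁ (T₁^[(i : ℕ)] (T₂^[(σ i : ℕ)] ω)) * f (T₁^[(i : ℕ)] (T₂^[(σ i : ℕ)] ω)) *
      g₂ (T₁^[(i : ℕ)] (T₂^[(σ i : ℕ)] ω)) =
      g₁ (T₂^[(σ i : ℕ)] ω) * f (T₁^[(i : ℕ)] (T₂^[(σ i : ℕ)] ω)) * g₂ (T₁^[(i : ℕ)] ω) := by
    intro i
    rw [iter_inv hg₁, iter_comm comm, iter_inv hg₂]
  rw [Finset.prod_congr rfl fun i _ => e1 i, Finset.prod_mul_distrib, Finset.prod_mul_distrib,
    Equiv.prod_comp σ (fun i : Fin n => g₁ (T₂^[(i : ℕ)] ω))]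
  have e2 : ∏ i : Fin n, g₁ (T₂^[(i : ℕ)] ω) =
      Real.exp (∑ k ∈ Finset.range n, Real.log (g₁ (T₂^[k] ω))) := by
    rw [← sum_fin (fun k => Real.log (g₁ (T₂^[k] ω))), Real.exp_sum]
    exact Finset.prod_congr rfl fun i _ => (Real.exp_log (p₁ _)).symm
  have e3 : ∏ i : Fin n, g₂ (T₁^[(i : ℕ)] ω) =
      Real.exp (∑ k ∈ Finset.range n, Real.log (g₂ (T₁^[k] ω))) := by
    rw [← sum_fin (fun k => Real.log (g₂ (T₁^[k] ω))), Real.exp_sum]
    exact Finset.prod_congr rfl fun i _ => (Real.exp_log (p₂ _)).symm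
  rw [e2, e3, ← Real.exp_nat_mul, mul_add, mul_inv_cancel_left₀ hn', mul_inv_cancel_left₀ hn',
    Real.exp_add]
  ring

omit [MeasurableSpace Ω] in
lemma PP_nonneg {T₁ T₂ : Ω → Ω} {f : Ω → ℝ} (hf : ∀ ω, 0 ≤ f ω) (n : ℕ) (ω : Ω) :
    0 ≤ PP T₁ T₂ f n ω :=
  div_nonneg (Finset.sum_nonneg fun σ _ => Finset.prod_nonneg fun i _ => hf _) (by positivity)

lemma log_div_tendsto : Tendsto (fun n : ℕ => (1 + Real.log n) / n) atTop (𝓝 0) := by
  have h1 : Tendsto (fun x : ℝ => Real.log x / x) atTop (𝓝 0) := by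
    have := Real.isLittleO_log_id_atTop.tendsto_div_nhds_zero
    exact this
  have h2 : Tendsto (fun n : ℕ => Real.log (n : ℝ) / n) atTop (𝓝 0) :=
    h1.comp tendsto_natCast_atTop_atTop
  have h3 : Tendsto (fun n : ℕ => (1 : ℝ) / n) atTop (𝓝 0) := tendsto_one_div_atTop_nhds_zero_nat
  have h4 := h3.add h2
  simp only [add_zero] at h4
  refine h4.congr fun n => ?_
  rw [add_div]

/-- bounds for the permanental mean up to `ε` -/
theorem main_eps {T₁ T₂ : Ω → Ω} (hT₁ : MeasurePreserving T₁ μ μ) (hT₂ : MeasurePreserving T₂ μ μ)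
    (comm : ∀ ω, T₁ (T₂ ω) = T₂ (T₁ ω)) (herg : ErgPair μ T₁ T₂) {f : Ω → ℝ}
    (hf : Measurable f) {a b : ℝ} (ha : 0 < a) (hfa : ∀ ω, a ≤ f ω) (hfb : ∀ ω, f ω ≤ b)
    {s : ℝ} (hs : 0 < s) (hsJ : ∀ g₁ g₂ : Ω → ℝ, Bd T₁ g₁ → Bd T₂ g₂ → s ≤ J μ f g₁ g₂)
    (hsinf : ∀ δ > 0, ∃ g₁ g₂ : Ω → ℝ, Bd T₁ g₁ ∧ Bd T₂ g₂ ∧ J μ f g₁ g₂ < s + δ)
    {ε : ℝ} (hε : 0 < ε) (hε1 : ε < 1) :
    ∀ᵐ ω ∂μ, ∀ᶠ n : ℕ in atTop,
      s * (1 - (1 + 4 * Real.log ((b / a) ^ 3)) * Real.sqrt ε) * (1 - ε) ≤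
        PP T₁ T₂ f n ω ^ (1 / (n : ℝ)) ∧
      PP T₁ T₂ f n ω ^ (1 / (n : ℝ)) ≤ s * (1 + ε) * (1 + 2 * ε) * (1 + ε) := by
  obtain ⟨g₁, g₂, lo, hg₁, hg₂, hlo, hb, hs1, hs2, hE1, c, hc1, hc2, hc3, hc4⟩ :=
    near hT₁ hT₂ comm herg hf ha hfa hfb hs hsJ hsinf hε
  set K : ℝ := (b / a) ^ 3 with hK
  set h : Ω → ℝ := fun ω => g₁ ω * f ω * g₂ ω with hh
  have hhm : Measurable h := (hg₁.measurable.mul hf).mul hg₂.measurable
  have hhb : ∀ ω, |h ω| ≤ max (K * lo) 1 := fun ω => by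
    rw [abs_of_pos (hlo.trans_le (hb ω).1)]
    exact (hb ω).2.trans (le_max_left _ _)
  have hcm : Measurable c := hc1.mono (MeasurableSpace.invariants_le T₂) le_rfl
  have hcb : ∀ ω, |c ω| ≤ max (K * lo) 1 := fun ω => by
    rw [abs_of_pos (hlo.trans_le (hc2 ω).1)]
    exact (hc2 ω).2.trans (le_max_left _ _)
  have hcinv : ∀ ω, c (T₂ ω) = c ω := fun ω =>
    congrFun (MeasurableSpace.comp_eq_of_measurable_invariants hc1) ω
  obtain ⟨M₁, hM₁⟩ := hg₁.logbd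
  obtain ⟨M₂, hM₂⟩ := hg₂.logbd
  have A1 := erg0 hT₂ comm herg (φ := fun ω => Real.log (g₁ ω)) hg₁.measurable.log
    (fun ω => by simp only [hg₁.inv]) hM₁
  have A2 := erg0 hT₁ (fun ω => (comm ω).symm) herg.symm (φ := fun ω => Real.log (g₂ ω))
    hg₂.measurable.log (fun ω => by simp only [hg₂.inv]) hM₂
  have A3 := rows hT₁ hT₂ hhm hhb hcm hcb hc3
  have A4 := erg0 hT₁ (fun ω => (comm ω).symm) herg.symm (φ := fun ω => |c ω - 1|)
    ((hcm.sub measurable_const).abs) (fun ω => by simp only [hcinv]) (C := max (K * lo) 1 + 1)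
    (fun ω => by
      rw [abs_abs]
      refine (abs_sub _ _).trans ?_
      rw [abs_one]
      linarith [hcb ω])
  have A5 := rows hT₂ hT₁ hhm hhb (c := fun _ => (1 : ℝ)) measurable_const
    (fun ω => by rw [abs_one]; exact le_max_right _ _)
    (by filter_upwards [hE1] with ω hω; exact hω.symm)
  filter_upwards [A1, A2, A3, A4, A5] with ω a1 a2 a3 a4 a5
  have hsq : 0 < Real.sqrt ε := Real.sqrt_pos.2 hε
  have hsqε : ε < Real.sqrt ε := by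
    have h1 := Real.mul_self_sqrt hε.le
    have h2 : Real.sqrt ε < 1 := by
      rw [Real.sqrt_lt' one_pos]; simpa using hε1
    nlinarith
  have hK1 : 1 ≤ K := by
    have h2 := (hb ω).1.trans (hb ω).2
    by_contra hcon
    push Not at hcon
    nlinarith
  have hLK : 0 ≤ Real.log K := Real.log_nonneg hK1
  have η : Tendsto (fun n : ℕ => Real.exp 1 * (K * lo) * (1 + Real.log n) / n) atTop (𝓝 0) := by
    have h1 := log_div_tendsto.const_mul (Real.exp 1 * (K * lo))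
    rw [mul_zero] at h1
    refine h1.congr fun n => ?_
    rw [mul_div_assoc]
  set G : ℝ := gm μ g₁ * gm μ g₂ with hG
  have hG0 : 0 < G := mul_pos (gm_pos _) (gm_pos _)
  have hexp : Tendsto (fun n : ℕ => Real.exp ((n : ℝ)⁻¹ * ∑ k ∈ Finset.range n, Real.log (g₁ (T₂^[k] ω)) +
        (n : ℝ)⁻¹ * ∑ k ∈ Finset.range n, Real.log (g₂ (T₁^[k] ω)))) atTop (𝓝 G) := by
    have h1 := (Real.continuous_exp.tendsto _).comp (a1.add a2)
    rw [Real.exp_add] at h1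
    exact h1
  have ev1 : ∀ᶠ n : ℕ in atTop, Real.exp ((n : ℝ)⁻¹ * ∑ k ∈ Finset.range n, Real.log (g₁ (T₂^[k] ω)) +
        (n : ℝ)⁻¹ * ∑ k ∈ Finset.range n, Real.log (g₂ (T₁^[k] ω))) < G / (1 - ε) :=
    hexp.eventually_lt_const (by
      rw [lt_div_iff₀ (by linarith)]
      nlinarith)
  have ev2 : ∀ᶠ n : ℕ in atTop, G / (1 + ε) < Real.exp ((n : ℝ)⁻¹ * ∑ k ∈ Finset.range n, Real.log (g₁ (T₂^[k] ω)) +
        (n : ℝ)⁻¹ * ∑ k ∈ Finset.range n, Real.log (g₂ (T₁^[k] ω))) :=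
    hexp.eventually_const_lt (by
      rw [div_lt_iff₀ (by linarith)]
      nlinarith)
  have ev3 := a3.eventually_lt_const (show (0 : ℝ) < Real.sqrt ε / 2 by positivity)
  have ev4 := a4.eventually_lt_const (show ∫ ω, |c ω - 1| ∂μ < 2 * Real.sqrt ε + Real.sqrt ε / 2 by
    linarith)
  have ev5 := a5.eventually_lt_const (show (0 : ℝ) < ε by positivity)
  have ev6 := η.eventually_lt_const (show (0 : ℝ) < ε by positivity)
  filter_upwards [ev1, ev2, ev3, ev4, ev5, ev6, eventually_gt_atTop 0] with n k1 k2 k3 k4 k5 k6 hn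
  have hn' : (0 : ℝ) < n := by exact_mod_cast hn
  set E : ℝ := Real.exp ((n : ℝ)⁻¹ * ∑ k ∈ Finset.range n, Real.log (g₁ (T₂^[k] ω)) +
        (n : ℝ)⁻¹ * ∑ k ∈ Finset.range n, Real.log (g₂ (T₁^[k] ω))) with hEdef
  have hE0 : 0 < E := Real.exp_pos _
  have hscale := PP_scale (f := f) comm hg₁.inv hg₂.inv hg₁.pos hg₂.pos hn ω
  rw [← hEdef] at hscale
  set B : Fin n → Fin n → ℝ := fun i j => h (T₁^[(i : ℕ)] (T₂^[(j : ℕ)] ω)) with hB
  have hB0 : ∀ i j, lo ≤ B i j := fun i j => (hb _).1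
  have hB1 : ∀ i j, B i j ≤ K * lo := fun i j => (hb _).2
  -- column averages
  have hcol : (∑ j : Fin n, |(∑ i : Fin n, B i j) / n - 1|) / n < ε := by
    refine lt_of_eq_of_lt ?_ k5
    rw [← sum_fin (fun j => |(n : ℝ)⁻¹ * ∑ i ∈ Finset.range n, h (T₁^[i] (T₂^[j] ω)) - 1|) n,
      div_eq_inv_mul]
    congr 1
    refine Finset.sum_congr rfl fun j _ => ?_
    rw [← sum_fin (fun i => h (T₁^[i] (T₂^[(j : ℕ)] ω))) n, div_eq_inv_mul]
  have hrow : (∑ i : Fin n, |(∑ j : Fin n, B i j) / n - 1|) / n < 3 * Real.sqrt ε := by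
    have h1 : (∑ i : Fin n, |(∑ j : Fin n, B i j) / n - 1|) / n ≤
        (n : ℝ)⁻¹ * ∑ i ∈ Finset.range n,
          |(n : ℝ)⁻¹ * ∑ j ∈ Finset.range n, h (T₂^[j] (T₁^[i] ω)) - c (T₁^[i] ω)| +
        (n : ℝ)⁻¹ * ∑ i ∈ Finset.range n, |c (T₁^[i] ω) - 1| := by
      rw [← mul_add, ← Finset.sum_add_distrib, div_eq_inv_mul]
      refine mul_le_mul_of_nonneg_left ?_ (by positivity)
      rw [← sum_fin (fun i => |(n : ℝ)⁻¹ * ∑ j ∈ Finset.range n, h (T₂^[j] (T₁^[i] ω)) -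
        c (T₁^[i] ω)| + |c (T₁^[i] ω) - 1|) n]
      refine Finset.sum_le_sum fun i _ => ?_
      have h2 : (∑ j : Fin n, B i j) / n =
          (n : ℝ)⁻¹ * ∑ j ∈ Finset.range n, h (T₂^[j] (T₁^[(i : ℕ)] ω)) := by
        rw [← sum_fin (fun j => h (T₂^[j] (T₁^[(i : ℕ)] ω))) n, div_eq_inv_mul]
        congr 1
        refine Finset.sum_congr rfl fun j _ => ?_
        simp only [hB]
        rw [iter_comm comm]
      rw [h2]
      exact abs_sub_le _ _ _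
    linarith
  have havg : |(∑ i : Fin n, ∑ j : Fin n, B i j) / (n : ℝ) ^ 2 - 1| ≤
      (∑ j : Fin n, |(∑ i : Fin n, B i j) / n - 1|) / n := by
    have h1 : (∑ i : Fin n, ∑ j : Fin n, B i j) / (n : ℝ) ^ 2 - 1 =
        (∑ j : Fin n, ((∑ i : Fin n, B i j) / n - 1)) / n := by
      rw [Finset.sum_sub_distrib, ← Finset.sum_div, Finset.sum_comm]
      simp only [Finset.sum_const, Finset.card_univ, Fintype.card_fin, nsmul_eq_mul, mul_one]
      field_simp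
    rw [h1, abs_div, abs_of_pos hn']
    exact div_le_div_of_nonneg_right (Finset.abs_sum_le_sum_abs _ _) hn'.le
  have hab := abs_le.1 havg
  have hPB : PP T₁ T₂ h n ω = (∑ σ : Equiv.Perm (Fin n), ∏ i, B i (σ i)) / (n.factorial : ℝ) := rfl
  have hup := per_le hn B (K * lo) (mul_pos (by linarith) hlo) (fun i j => hlo.le.trans (hB0 i j)) hB1
  rw [← hPB] at hup
  have hPf0 : 0 ≤ PP T₁ T₂ f n ω := PP_nonneg (fun ω => ha.le.trans (hfa ω)) n ω
  have hPh0 : 0 ≤ PP T₁ T₂ h n ω := PP_nonneg (fun ω => hlo.le.trans (hb ω).1) n ω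
  set X : ℝ := PP T₁ T₂ f n ω ^ (1 / (n : ℝ)) with hX
  have hX0 : 0 ≤ X := Real.rpow_nonneg hPf0 _
  have hXn : X ^ n = PP T₁ T₂ f n ω := by
    rw [hX, one_div]
    exact Real.rpow_inv_natCast_pow hPf0 hn.ne'
  have hEX : (E * X) ^ n = PP T₁ T₂ h n ω := by
    rw [mul_pow, hXn, ← hscale]
  have hEX0 : 0 ≤ E * X := mul_nonneg hE0.le hX0
  constructor
  · -- lower bound
    set q : ℝ := 1 - (1 + 4 * Real.log K) * Real.sqrt ε with hq
    by_cases hq0 : q ≤ 0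
    · refine le_trans ?_ hX0
      have : 0 ≤ 1 - ε := by linarith
      have h1 : s * q ≤ 0 := mul_nonpos_of_nonneg_of_nonpos hs.le hq0
      exact mul_nonpos_of_nonpos_of_nonneg h1 this
    · push Not at hq0
      have h1 : q ≤ (∑ i : Fin n, ∑ j : Fin n, B i j) / (n : ℝ) ^ 2 - Real.log K *
          ((∑ i : Fin n, |(∑ j : Fin n, B i j) / n - 1|) / n +
            (∑ j : Fin n, |(∑ i : Fin n, B i j) / n - 1|) / n) := by
        have h2 : Real.log K *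
          ((∑ i : Fin n, |(∑ j : Fin n, B i j) / n - 1|) / n +
            (∑ j : Fin n, |(∑ i : Fin n, B i j) / n - 1|) / n) ≤ Real.log K * (4 * Real.sqrt ε) :=
          mul_le_mul_of_nonneg_left (by linarith) hLK
        rw [hq]
        nlinarith [hab.1]
      have h2 := per_ge hn B lo K hlo hB0 hB1 q hq0.le h1
      rw [← hPB, ← hEX] at h2
      have h3 : q ≤ E * X := le_of_pow_le_pow_left₀ hn.ne' hEX0 h2
      -- `E < G / (1 - ε)` and `s * G ≤ 1`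
      have h4 : E * X ≤ G / (1 - ε) * X := mul_le_mul_of_nonneg_right k1.le hX0
      have h5 : q * (1 - ε) ≤ G * X := by
        have h6 := h3.trans h4
        rw [div_mul_eq_mul_div, le_div_iff₀ (by linarith)] at h6
        exact h6
      calc s * q * (1 - ε) = s * (q * (1 - ε)) := by ring
        _ ≤ s * (G * X) := mul_le_mul_of_nonneg_left h5 hs.le
        _ = (s * G) * X := by ring
        _ ≤ 1 * X := mul_le_mul_of_nonneg_right hs1 hX0
        _ = X := one_mul _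
  · -- upper bound
    have hU : (∑ i : Fin n, ∑ j : Fin n, B i j) / (n : ℝ) ^ 2 +
        Real.exp 1 * (K * lo) * (1 + Real.log n) / n ≤ 1 + 2 * ε := by linarith [hab.2]
    have hU0 : 0 ≤ (∑ i : Fin n, ∑ j : Fin n, B i j) / (n : ℝ) ^ 2 +
        Real.exp 1 * (K * lo) * (1 + Real.log n) / n := by
      have h1 : 0 ≤ ∑ i : Fin n, ∑ j : Fin n, B i j :=
        Finset.sum_nonneg fun i _ => Finset.sum_nonneg fun j _ => hlo.le.trans (hB0 i j)
      have h2 : 0 ≤ Real.log (n : ℝ) := Real.log_nonneg (by exact_mod_cast hn)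
      positivity
    rw [← hEX] at hup
    have h1 : E * X ≤ 1 + 2 * ε := (le_of_pow_le_pow_left₀ hn.ne' hU0 hup).trans hU
    have h2 : G / (1 + ε) * X ≤ 1 + 2 * ε :=
      (mul_le_mul_of_nonneg_right k2.le hX0).trans h1
    have h3 : G * X ≤ (1 + 2 * ε) * (1 + ε) := by
      rw [div_mul_eq_mul_div, div_le_iff₀ (by linarith)] at h2
      exact h2
    calc X = 1 * X := (one_mul _).symm
      _ ≤ s * (1 + ε) * G * X := mul_le_mul_of_nonneg_right hs2 hX0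
      _ = s * (1 + ε) * (G * X) := by ring
      _ ≤ s * (1 + ε) * ((1 + 2 * ε) * (1 + ε)) :=
        mul_le_mul_of_nonneg_left h3 (by positivity)
      _ = _ := by ring

/-- the law of large permanents for functions bounded away from `0` and `∞` -/
theorem main_bdd {T₁ T₂ : Ω → Ω} (hT₁ : MeasurePreserving T₁ μ μ) (hT₂ : MeasurePreserving T₂ μ μ)
    (comm : ∀ ω, T₁ (T₂ ω) = T₂ (T₁ ω)) (herg : ErgPair μ T₁ T₂) {f : Ω → ℝ}
    (hf : Measurable f) {a b : ℝ} (ha : 0 < a) (hfa : ∀ ω, a ≤ f ω) (hfb : ∀ ω, f ω ≤ b)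
    {s : ℝ} (hs : 0 < s) (hsJ : ∀ g₁ g₂ : Ω → ℝ, Bd T₁ g₁ → Bd T₂ g₂ → s ≤ J μ f g₁ g₂)
    (hsinf : ∀ δ > 0, ∃ g₁ g₂ : Ω → ℝ, Bd T₁ g₁ ∧ Bd T₂ g₂ ∧ J μ f g₁ g₂ < s + δ) :
    ∀ᵐ ω ∂μ, Tendsto (fun n : ℕ => PP T₁ T₂ f n ω ^ (1 / (n : ℝ))) atTop (𝓝 s) := by
  set L : ℝ := Real.log ((b / a) ^ 3) with hL
  set e : ℕ → ℝ := fun k => 1 / ((k : ℝ) + 2) with he
  have he0 : ∀ k, 0 < e k := fun k => by simp only [he]; positivity
  have he1 : ∀ k, e k < 1 := fun k => by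
    simp only [he]
    rw [div_lt_one (by positivity)]
    have : (0 : ℝ) ≤ k := Nat.cast_nonneg k
    linarith
  have hlim : Tendsto e atTop (𝓝 0) := by
    have h1 : Tendsto (fun n : ℕ => (1 : ℝ) / n) atTop (𝓝 0) := tendsto_one_div_atTop_nhds_zero_nat
    have h2 := h1.comp (tendsto_add_atTop_nat 2)
    refine h2.congr fun k => ?_
    simp only [he, Function.comp_apply]
    push_cast
    rfl
  have hsq : Tendsto (fun k => Real.sqrt (e k)) atTop (𝓝 0) := by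
    have := (Real.continuous_sqrt.tendsto 0).comp hlim
    rwa [Real.sqrt_zero] at this
  have hlo : Tendsto (fun k => s * (1 - (1 + 4 * L) * Real.sqrt (e k)) * (1 - e k)) atTop (𝓝 s) := by
    have h1 := ((((hsq.const_mul (1 + 4 * L)).const_sub 1).const_mul s)).mul (hlim.const_sub 1)
    simpa using h1
  have hhi : Tendsto (fun k => s * (1 + e k) * (1 + 2 * e k) * (1 + e k)) atTop (𝓝 s) := by
    have h1 := ((((hlim.const_add 1).const_mul s)).mul ((hlim.const_mul 2).const_add 1)).mul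
      (hlim.const_add 1)
    simpa using h1
  have hall : ∀ k, ∀ᵐ ω ∂μ, ∀ᶠ n : ℕ in atTop,
      s * (1 - (1 + 4 * L) * Real.sqrt (e k)) * (1 - e k) ≤ PP T₁ T₂ f n ω ^ (1 / (n : ℝ)) ∧
      PP T₁ T₂ f n ω ^ (1 / (n : ℝ)) ≤ s * (1 + e k) * (1 + 2 * e k) * (1 + e k) := fun k =>
    main_eps hT₁ hT₂ comm herg hf ha hfa hfb hs hsJ hsinf (he0 k) (he1 k)
  rw [← ae_all_iff] at hall
  filter_upwards [hall] with ω hω
  rw [tendsto_order]
  constructor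
  · intro x hx
    obtain ⟨k, hk⟩ := (hlo.eventually_const_lt hx).exists
    filter_upwards [hω k] with n hn
    exact hk.trans_le hn.1
  · intro x hx
    obtain ⟨k, hk⟩ := (hhi.eventually_lt_const hx).exists
    filter_upwards [hω k] with n hn
    exact hn.2.trans_lt hk

end Pool.Agent.H415.LLP
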