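import Mathlib
import Pool.Agent.H415.LLP.Main
import Pool.Agent.H415.LLP.InvVersion
import Pool.Agent.H415.LLP.Defs2
import Pool.Agent.H415.LLP.Trunc

/-!
# The law of large permanents for ergodic actions of `ℕ²`
-/

set_option autoImplicit false

open Set Filter Topology MeasureTheory
open scoped ENNReal

namespace Pool.Agent.H415.LLP

variable {Ω : Type*} [MeasurableSpace Ω] {μ : Measure Ω} [IsProbabilityMeasure μ]

lemma smeanAE_eq {T₁ T₂ : Ω → Ω} (hT₁ : MeasurePreserving T₁ μ μ)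
    (hT₂ : MeasurePreserving T₂ μ μ) (f : Ω → ℝ) : smeanAE μ T₁ T₂ f = smean μ T₁ T₂ f := by
  apply le_antisymm
  · unfold smean
    refine le_iInf fun g₁ => le_iInf fun g₂ => le_iInf fun h₁ => le_iInf fun h₂ => ?_
    unfold smeanAE
    refine iInf_le_of_le g₁ (iInf_le_of_le g₂ (iInf_le_of_le ?_ (iInf_le_of_le ?_ le_rfl)))
    · exact ⟨h₁.meas.mono (MeasurableSpace.invariants_le T₁) le_rfl, Eventually.of_forall fun ω =>
        congrFun (MeasurableSpace.comp_eq_of_measurable_invariants h₁.meas) ω, h₁.pos, h₁.logInt⟩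
    · exact ⟨h₂.meas.mono (MeasurableSpace.invariants_le T₂) le_rfl, Eventually.of_forall fun ω =>
        congrFun (MeasurableSpace.comp_eq_of_measurable_invariants h₂.meas) ω, h₂.pos, h₂.logInt⟩
  · unfold smeanAE
    refine le_iInf fun g₁ => le_iInf fun g₂ => le_iInf fun h₁ => le_iInf fun h₂ => ?_
    obtain ⟨p₁, hp₁, hp₁0, e₁⟩ := inv_version hT₁ h₁.meas h₁.pos h₁.inv
    obtain ⟨p₂, hp₂, hp₂0, e₂⟩ := inv_version hT₂ h₂.meas h₂.pos h₂.inv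
    have k₁ : (fun ω => Real.log (p₁ ω)) =ᵐ[μ] fun ω => Real.log (g₁ ω) := by
      filter_upwards [e₁] with ω hω
      rw [hω]
    have k₂ : (fun ω => Real.log (p₂ ω)) =ᵐ[μ] fun ω => Real.log (g₂ ω) := by
      filter_upwards [e₂] with ω hω
      rw [hω]
    have q₁ : InG μ T₁ p₁ := ⟨hp₁, hp₁0, h₁.logInt.congr k₁.symm⟩
    have q₂ : InG μ T₂ p₂ := ⟨hp₂, hp₂0, h₂.logInt.congr k₂.symm⟩
    have m₁ : gm μ p₁ = gm μ g₁ := by
      unfold gm; rw [integral_congr_ae k₁]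
    have m₂ : gm μ p₂ = gm μ g₂ := by
      unfold gm; rw [integral_congr_ae k₂]
    have m₃ : ∫⁻ ω, ENNReal.ofReal (p₁ ω * f ω * p₂ ω) ∂μ =
        ∫⁻ ω, ENNReal.ofReal (g₁ ω * f ω * g₂ ω) ∂μ := by
      refine lintegral_congr_ae ?_
      filter_upwards [e₁, e₂] with ω h1 h2
      rw [h1, h2]
    unfold smean
    refine iInf_le_of_le p₁ (iInf_le_of_le p₂ (iInf_le_of_le q₁ (iInf_le_of_le q₂ ?_)))
    rw [m₁, m₂, m₃]

omit [IsProbabilityMeasure μ] in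
lemma smean_congr {T₁ T₂ : Ω → Ω} {f f' : Ω → ℝ} (h : ∀ᵐ ω ∂μ, f ω = f' ω) :
    smean μ T₁ T₂ f = smean μ T₁ T₂ f' := by
  unfold smean
  refine iInf_congr fun g₁ => iInf_congr fun g₂ => iInf_congr fun h₁ => iInf_congr fun h₂ => ?_
  congr 1
  refine lintegral_congr_ae ?_
  filter_upwards [h] with ω hω
  rw [hω]

omit [MeasurableSpace Ω] in
lemma pmean_eq (T₁ T₂ : Ω → Ω) (f : Ω → ℝ) (n : ℕ) (ω : Ω) :
    pmean (Matrix.of fun i j : Fin n => f (T₁^[(i : ℕ)] (T₂^[(j : ℕ)] ω))) =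
      PP T₁ T₂ f n ω ^ (1 / (n : ℝ)) := by
  unfold pmean PP
  rw [Pool.Agent.H450R3.Fg.per_eq]
  rfl

/-- **the law of large permanents for ergodic actions of `ℕ²`** -/
theorem llp {T₁ T₂ : Ω → Ω} (hT₁ : MeasurePreserving T₁ μ μ) (hT₂ : MeasurePreserving T₂ μ μ)
    (comm : ∀ ω, T₁ (T₂ ω) = T₂ (T₁ ω))
    (herg : ∀ A, MeasurableSet A → T₁ ⁻¹' A = A → T₂ ⁻¹' A = A → μ A = 0 ∨ μ A = 1)
    {f : Ω → ℝ} (hf : Measurable f)
    (hlog : ∃ C : ℝ, ∀ᵐ ω ∂μ, 0 < f ω ∧ |Real.log (f ω)| ≤ C) :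
    smeanAE μ T₁ T₂ f = smean μ T₁ T₂ f ∧ smean μ T₁ T₂ f ≠ ⊤ ∧
      ∀ᵐ ω ∂μ, Tendsto
        (fun n : ℕ => pmean (Matrix.of fun i j : Fin n => f (T₁^[(i : ℕ)] (T₂^[(j : ℕ)] ω))))
        atTop (𝓝 (smean μ T₁ T₂ f).toReal) := by
  refine ⟨smeanAE_eq hT₁ hT₂ f, ?_⟩
  obtain ⟨C₀, hC₀⟩ := hlog
  set C : ℝ := max C₀ 0 with hC
  set f' : Ω → ℝ := fun ω => max (Real.exp (-C)) (min (f ω) (Real.exp C)) with hf'
  have hab : Real.exp (-C) ≤ Real.exp C := Real.exp_le_exp.2 (by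
    have : 0 ≤ C := le_max_right _ _
    linarith)
  have hf'm : Measurable f' := measurable_const.max (hf.min measurable_const)
  have hfa : ∀ ω, Real.exp (-C) ≤ f' ω := fun ω => le_max_left _ _
  have hfb : ∀ ω, f' ω ≤ Real.exp C := fun ω => max_le hab (min_le_right _ _)
  have hae : ∀ᵐ ω ∂μ, f ω = f' ω := by
    filter_upwards [hC₀] with ω hω
    have h1 : |Real.log (f ω)| ≤ C := hω.2.trans (le_max_left _ _)
    rw [abs_le] at h1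
    have h2 : Real.exp (-C) ≤ f ω := by
      rw [← Real.exp_log hω.1]; exact Real.exp_le_exp.2 h1.1
    have h3 : f ω ≤ Real.exp C := by
      rw [← Real.exp_log hω.1]; exact Real.exp_le_exp.2 h1.2
    simp only [hf']
    rw [min_eq_left h3, max_eq_right h2]
  obtain ⟨hs0, hsJ, hsm⟩ := smean_eq μ T₁ T₂ hf'm (Real.exp_pos (-C)) hfa hfb
  set s : ℝ := s0 μ T₁ T₂ f' with hs
  have hspos : 0 < s := (Real.exp_pos _).trans_le hs0
  have hsinf : ∀ δ > 0, ∃ g₁ g₂ : Ω → ℝ, Bd T₁ g₁ ∧ Bd T₂ g₂ ∧ J μ f' g₁ g₂ < s + δ := by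
    intro δ hδ
    have hne : {r | ∃ g₁ g₂ : Ω → ℝ, Bd T₁ g₁ ∧ Bd T₂ g₂ ∧ r = J μ f' g₁ g₂}.Nonempty :=
      ⟨_, fun _ => 1, fun _ => 1, ⟨measurable_const, 1, one_pos, fun ω => by norm_num⟩,
        ⟨measurable_const, 1, one_pos, fun ω => by norm_num⟩, rfl⟩
    obtain ⟨r, ⟨g₁, g₂, h₁, h₂, rfl⟩, hr⟩ := exists_lt_of_csInf_lt hne
      (show sInf {r | ∃ g₁ g₂ : Ω → ℝ, Bd T₁ g₁ ∧ Bd T₂ g₂ ∧ r = J μ f' g₁ g₂} < s + δ by
        have : s = sInf {r | ∃ g₁ g₂ : Ω → ℝ, Bd T₁ g₁ ∧ Bd T₂ g₂ ∧ r = J μ f' g₁ g₂} := rfl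
        rw [← this]; linarith)
    exact ⟨g₁, g₂, h₁, h₂, hr⟩
  have hmain := main_bdd hT₁ hT₂ comm herg hf'm (Real.exp_pos (-C)) hfa hfb hspos hsJ hsinf
  have hval : (smean μ T₁ T₂ f).toReal = s := by
    rw [smean_congr hae, hsm, ENNReal.toReal_ofReal hspos.le]
  refine ⟨by rw [smean_congr hae, hsm]; exact ENNReal.ofReal_ne_top, ?_⟩
  have horb : ∀ᵐ ω ∂μ, ∀ i j : ℕ, f (T₁^[i] (T₂^[j] ω)) = f' (T₁^[i] (T₂^[j] ω)) := by
    rw [ae_all_iff]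
    intro i
    rw [ae_all_iff]
    intro j
    exact ((hT₁.iterate i).comp (hT₂.iterate j)).quasiMeasurePreserving.ae hae
  filter_upwards [hmain, horb] with ω h1 h2
  rw [hval]
  refine h1.congr fun n => ?_
  rw [pmean_eq]
  congr 1
  unfold PP
  congr 1
  refine Finset.sum_congr rfl fun σ _ => Finset.prod_congr rfl fun i _ => ?_
  exact (h2 _ _).symm

end Pool.Agent.H415.LLP
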